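import Mathlib

/-!
Closure properties of a family `W` of languages, transported to arbitrary finite alphabets.
-/

set_option autoImplicit false

namespace Pool.Agent.MP_df6b17_lc

/-- recognised by a finite local group -/
def LGRec {α : Type} (L : Set (List α)) : Prop :=
  ∃ (S : Type) (_ : Semigroup S) (_ : Finite S),
    (∀ e : S, e * e = e → ∀ x : S, ∃ y : S,
      (e * x * e) * (e * y * e) = e ∧ (e * y * e) * (e * x * e) = e) ∧
    ∃ φ : List α → S, (∀ u v : List α, u ≠ [] → v ≠ [] → φ (u ++ v) = φ u * φ v) ∧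
      ∃ X : Set S, L = {w : List α | w ≠ [] ∧ φ w ∈ X}

/-- the closure hypotheses of the statement -/
structure Closed (W : (k : ℕ) → Set (Set (List (Fin k)))) : Prop where
  empty : ∀ k, (∅ : Set (List (Fin k))) ∈ W k
  compl : ∀ k, ∀ L ∈ W k, {w : List (Fin k) | w ≠ [] ∧ w ∉ L} ∈ W k
  union : ∀ k, ∀ L ∈ W k, ∀ K ∈ W k, L ∪ K ∈ W k
  quot : ∀ k, ∀ L ∈ W k, ∀ u : List (Fin k),
    {w : List (Fin k) | w ≠ [] ∧ u ++ w ∈ L} ∈ W k ∧
    {w : List (Fin k) | w ≠ [] ∧ w ++ u ∈ L} ∈ W k
  inv : ∀ (k m : ℕ) (φ : Fin m → List (Fin k)), (∀ a, φ a ≠ []) →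
    ∀ L ∈ W k, {w : List (Fin m) | w ≠ [] ∧ w.flatMap φ ∈ L} ∈ W m
  code : ∀ (k : ℕ) (P : Finset (List (Fin k))),
    ([] : List (Fin k)) ∉ P →
    (∀ p ∈ P, ∀ q ∈ P, p <+: q → p = q) →
    LGRec {w : List (Fin k) | ∃ l : List (List (Fin k)),
      l ≠ [] ∧ (∀ p ∈ l, p ∈ P) ∧ w = l.flatten} →
    {w : List (Fin k) | ∃ l : List (List (Fin k)),
      l ≠ [] ∧ (∀ p ∈ l, p ∈ P) ∧ w = l.flatten} ∈ W k

variable {W : (k : ℕ) → Set (Set (List (Fin k)))}

/-- membership in `W` of the set of nonempty words over `α` satisfying `p` -/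
def WW (W : (k : ℕ) → Set (Set (List (Fin k)))) {α : Type} [Finite α] (p : List α → Prop) :
    Prop :=
  {w : List (Fin (Nat.card α)) | w ≠ [] ∧ p (w.map (Finite.equivFin α).symm)} ∈ W (Nat.card α)

section
variable {α β : Type} [Finite α] [Finite β]

theorem WW.congr {p q : List α → Prop} (h : WW W p) (hpq : ∀ w, w ≠ [] → (p w ↔ q w)) :
    WW W q := by
  unfold WW at *
  convert h using 2
  ext w
  constructor
  · rintro ⟨h1, h2⟩
    exact ⟨h1, (hpq _ (by simpa using h1)).2 h2⟩
  · rintro ⟨h1, h2⟩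
    exact ⟨h1, (hpq _ (by simpa using h1)).1 h2⟩

theorem WW_false (hW : Closed W) : WW W (fun _ : List α => False) := by
  unfold WW
  simpa using hW.empty _

theorem WW.not (hW : Closed W) {p : List α → Prop} (h : WW W p) : WW W (fun w => ¬ p w) := by
  unfold WW at *
  convert hW.compl _ _ h using 2
  ext w
  simp only [Set.mem_ofPred_eq]
  tauto

theorem WW.or (hW : Closed W) {p q : List α → Prop} (h : WW W p) (h' : WW W q) :
    WW W (fun w => p w ∨ q w) := by
  unfold WW at *
  convert hW.union _ _ h _ h' using 1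
  ext w
  simp only [Set.mem_ofPred_eq, Set.mem_union]
  tauto

theorem WW.and (hW : Closed W) {p q : List α → Prop} (h : WW W p) (h' : WW W q) :
    WW W (fun w => p w ∧ q w) :=
  (((h.not hW).or hW (h'.not hW)).not hW).congr (fun w _ => by tauto)

theorem WW_true (hW : Closed W) : WW W (fun _ : List α => True) :=
  ((WW_false hW).not hW).congr (fun w _ => by tauto)

theorem WW_const (hW : Closed W) (c : Prop) : WW W (fun _ : List α => c) := by
  by_cases hc : c
  · exact (WW_true hW).congr (fun w _ => by tauto)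
  · exact (WW_false hW).congr (fun w _ => by tauto)

theorem WW.left (hW : Closed W) {p : List α → Prop} (h : WW W p) (u : List α) :
    WW W (fun w => p (u ++ w)) := by
  unfold WW at *
  convert (hW.quot _ _ h (u.map (Finite.equivFin α))).1 using 2
  ext w
  simp only [Set.mem_ofPred_eq, List.map_append, List.map_map, Equiv.symm_comp_self, List.map_id]
  constructor
  · rintro ⟨h1, h2⟩
    exact ⟨h1, by simp [h1], h2⟩
  · rintro ⟨h1, _, h2⟩
    exact ⟨h1, h2⟩

theorem WW.right (hW : Closed W) {p : List α → Prop} (h : WW W p) (u : List α) :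
    WW W (fun w => p (w ++ u)) := by
  unfold WW at *
  convert (hW.quot _ _ h (u.map (Finite.equivFin α))).2 using 2
  ext w
  simp only [Set.mem_ofPred_eq, List.map_append, List.map_map, Equiv.symm_comp_self, List.map_id]
  constructor
  · rintro ⟨h1, h2⟩
    exact ⟨h1, by simp [h1], h2⟩
  · rintro ⟨h1, _, h2⟩
    exact ⟨h1, h2⟩

theorem WW.inv (hW : Closed W) {p : List β → Prop} (h : WW W p) (ψ : α → List β)
    (hψ : ∀ a, ψ a ≠ []) : WW W (fun w : List α => p (w.flatMap ψ)) := by
  unfold WW at *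
  convert hW.inv _ (Nat.card α)
    (fun i => (ψ ((Finite.equivFin α).symm i)).map (Finite.equivFin β))
    (fun i => by simpa using hψ _) _ h using 2
  ext w
  have key : List.map (⇑(Finite.equivFin β).symm)
      (List.flatMap (fun i => (ψ ((Finite.equivFin α).symm i)).map (Finite.equivFin β)) w)
      = List.flatMap ψ (List.map (⇑(Finite.equivFin α).symm) w) := by
    simp [List.map_flatMap, List.flatMap_map, List.map_map]
  simp only [Set.mem_ofPred_eq, key]
  constructor
  · rintro ⟨h1, h2⟩
    refine ⟨h1, ?_, h2⟩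
    obtain ⟨a, l, rfl⟩ := List.exists_cons_of_ne_nil h1
    simp [hψ]
  · rintro ⟨h1, _, h2⟩
    exact ⟨h1, h2⟩

theorem WW_exists (hW : Closed W) {ι : Type} [Finite ι] {p : ι → List α → Prop}
    (h : ∀ i, WW W (p i)) : WW W (fun w => ∃ i, p i w) := by
  classical
  have := Fintype.ofFinite ι
  have : ∀ s : Finset ι, WW W (fun w => ∃ i ∈ s, p i w) := by
    intro s
    induction s using Finset.induction_on with
    | empty => exact (WW_false hW).congr (fun w _ => by simp)
    | insert a s _ ih => exact ((h a).or hW ih).congr (fun w _ => by simp)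
  exact (this Finset.univ).congr (fun w _ => by simp)

theorem WW_forall (hW : Closed W) {ι : Type} [Finite ι] {p : ι → List α → Prop}
    (h : ∀ i, WW W (p i)) : WW W (fun w => ∀ i, p i w) :=
  ((WW_exists hW (fun i => (h i).not hW)).not hW).congr (fun w _ => by simp)

/-- a function on words all of whose predicates are in `W` -/
def Rec (W : (k : ℕ) → Set (Set (List (Fin k)))) {α : Type} [Finite α] {T : Type}
    (f : List α → T) : Prop :=
  ∀ X : T → Prop, WW W (fun w => X (f w))

theorem Rec_of_fibers (hW : Closed W) {T : Type} [Finite T] {f : List α → T}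
    (h : ∀ t, WW W (fun w => f w = t)) : Rec W f := by
  intro X
  refine (WW_exists hW (ι := T) (p := fun t w => X t ∧ f w = t)
    (fun t => (WW_const hW (X t)).and hW (h t))).congr (fun w _ => ?_)
  simp

theorem Rec_of_WW (hW : Closed W) {p : List α → Prop} (h : WW W p) : Rec W p := by
  refine Rec_of_fibers hW (fun t => ?_)
  by_cases ht : t
  · exact h.congr (fun w _ => by simp [ht])
  · exact (h.not hW).congr (fun w _ => by simp [ht])

theorem Rec.determined {T T' : Type} {f : List α → T} (h : Rec W f) {g : List α → T'}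
    (hg : ∀ w w', w ≠ [] → w' ≠ [] → f w = f w' → g w = g w') : Rec W g := by
  intro X
  refine (h (fun t => ∃ w', w' ≠ [] ∧ f w' = t ∧ X (g w'))).congr (fun w hw => ?_)
  constructor
  · rintro ⟨w', h1, h2, h3⟩
    rwa [hg w w' hw h1 h2.symm]
  · intro hx
    exact ⟨w, hw, rfl, hx⟩

theorem Rec_pi (hW : Closed W) {ι : Type} [Finite ι] {T : Type} [Finite T]
    {f : ι → List α → T} (h : ∀ i, Rec W (f i)) : Rec W (fun w i => f i w) := by
  refine Rec_of_fibers hW (fun t => ?_)
  refine (WW_forall hW (p := fun i w => f i w = t i) (fun i => h i (fun s => s = t i))).congr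
    (fun w _ => ?_)
  simp [funext_iff]

theorem Rec.pair (hW : Closed W) {T T' : Type} [Finite T] [Finite T'] {f : List α → T}
    {g : List α → T'} (h : Rec W f) (h' : Rec W g) : Rec W (fun w => (f w, g w)) := by
  refine Rec_of_fibers hW (fun t => ?_)
  refine ((h (fun s => s = t.1)).and hW (h' (fun s => s = t.2))).congr (fun w _ => ?_)
  simp [Prod.ext_iff]

theorem Rec.left (hW : Closed W) {T : Type} {f : List α → T} (h : Rec W f) (u : List α) :
    Rec W (fun w => f (u ++ w)) := fun X => (h X).left hW u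

theorem Rec.right (hW : Closed W) {T : Type} {f : List α → T} (h : Rec W f) (u : List α) :
    Rec W (fun w => f (w ++ u)) := fun X => (h X).right hW u

theorem Rec.inv (hW : Closed W) {T : Type} {f : List β → T} (h : Rec W f) (ψ : α → List β)
    (hψ : ∀ a, ψ a ≠ []) : Rec W (fun w : List α => f (w.flatMap ψ)) :=
  fun X => (h X).inv hW ψ hψ

theorem WW.toFin (hW : Closed W) {n : ℕ} {p : List (Fin n) → Prop} (h : WW W p) :
    {w : List (Fin n) | w ≠ [] ∧ p w} ∈ W n := by
  unfold WW at h
  convert hW.inv _ n (fun i => [Finite.equivFin (Fin n) i]) (fun i => by simp) _ h using 2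
  ext w
  have key : List.map (⇑(Finite.equivFin (Fin n)).symm)
      (List.flatMap (fun i => [Finite.equivFin (Fin n) i]) w) = w := by
    simp [List.map_flatMap]
  simp only [Set.mem_ofPred_eq, key]
  constructor
  · rintro ⟨h1, h2⟩
    refine ⟨h1, ?_, h2⟩
    obtain ⟨a, l, rfl⟩ := List.exists_cons_of_ne_nil h1
    simp
  · rintro ⟨h1, _, h2⟩
    exact ⟨h1, h2⟩

end

end Pool.Agent.MP_df6b17_lc
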