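import Mathlib

/-!
A reversible register machine which, along every text, at some time either has predicted or has
recorded a whole round of the text; it is used to force a group element through the identity.
-/

set_option autoImplicit false

namespace Pool.Agent.MP_df6b17_lc

theorem bernoulli_aux (s J : ℕ) : s ^ J * (s + J) ≤ (s + 1) ^ J * s := by
  induction J with
  | zero => simp
  | succ J ih =>
    calc s ^ (J + 1) * (s + (J + 1)) = s ^ J * (s * (s + J + 1)) := by ring
      _ ≤ s ^ J * ((s + J) * (s + 1)) := Nat.mul_le_mul_left _ (by nlinarith)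
      _ = s ^ J * (s + J) * (s + 1) := by ring
      _ ≤ (s + 1) ^ J * s * (s + 1) := Nat.mul_le_mul_right _ ih
      _ = (s + 1) ^ (J + 1) * s := by ring

theorem bernoulli (s : ℕ) : s ^ (s * s) * (s + 1) ≤ (s + 1) ^ (s * s) := by
  rcases Nat.eq_zero_or_pos s with rfl | hs
  · simp
  · have := bernoulli_aux s (s * s)
    apply Nat.le_of_mul_le_mul_right _ hs
    calc s ^ (s * s) * (s + 1) * s = s ^ (s * s) * (s + s * s) := by ring
      _ ≤ _ := this

theorem exists_compress (R : Type) [Finite R] (c : R) :
    ∃ (J : ℕ) (Φ : Equiv.Perm ((Fin J → R) × R)), ∀ u, (∀ j, u.1 j ≠ c) → (Φ u).2 = c := by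
  classical
  have := Fintype.ofFinite R
  obtain ⟨s, hs⟩ : ∃ s, Fintype.card R = s + 1 :=
    ⟨Fintype.card R - 1, by have := Fintype.card_pos_iff.2 ⟨c⟩; omega⟩
  have hc : Fintype.card {r : R // r ≠ c} = s := by
    simp [Fintype.card_subtype_compl, hs]
  obtain ⟨e⟩ : Nonempty (((Fin (s * s) → {r : R // r ≠ c}) × R) ↪ (Fin (s * s) → R)) := by
    apply Function.Embedding.nonempty_of_card_le
    simp only [Fintype.card_prod, Fintype.card_pi, Finset.prod_const, Finset.card_univ,
      Fintype.card_fin, hc, hs]
    exact bernoulli s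
  obtain ⟨Φ, hΦ⟩ := Equiv.Perm.exists_extending_pair
    (f := fun x : (Fin (s * s) → {r : R // r ≠ c}) × R => ((fun j => (x.1 j).1, x.2) :
      (Fin (s * s) → R) × R))
    (g := fun x => (e x, c))
    (by
      rintro ⟨a, b⟩ ⟨a', b'⟩ h
      simp only [Prod.mk.injEq] at h ⊢
      exact ⟨funext fun j => Subtype.ext (congrFun h.1 j), h.2⟩)
    (by
      intro x y h
      exact e.injective (congrArg Prod.fst h))
  refine ⟨s * s, Φ, fun u hu => ?_⟩
  have := hΦ (fun j => ⟨u.1 j, hu j⟩, u.2)
  exact congrArg Prod.snd this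

section
variable {A G : Type} [Group G]

def headP (Γ : A → A → G) (c : ℕ → A) : ℕ → G
  | 0 => 1
  | i + 1 => headP Γ c i * Γ (c i) (c (i + 1))

def tailP (Γ : A → A → G) (c : ℕ → A) : ℕ → ℕ → G
  | 0, _ => 1
  | n + 1, i => Γ (c i) (c (i + 1)) * tailP Γ c n (i + 1)

theorem headP_congr (Γ : A → A → G) {c c' : ℕ → A} (i : ℕ) (h : ∀ s ≤ i, c s = c' s) :
    headP Γ c i = headP Γ c' i := by
  induction i with
  | zero => rfl
  | succ i ih =>
    simp only [headP]
    rw [ih (fun s hs => h s (by omega)), h i (by omega), h (i + 1) le_rfl]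

theorem tailP_congr (Γ : A → A → G) {c c' : ℕ → A} (n i : ℕ)
    (h : ∀ s, i ≤ s → s ≤ i + n → c s = c' s) : tailP Γ c n i = tailP Γ c' n i := by
  induction n generalizing i with
  | zero => rfl
  | succ n ih =>
    simp only [tailP]
    rw [ih (i + 1) (fun s h1 h2 => h s (by omega) (by omega)), h i le_rfl (by omega),
      h (i + 1) (by omega) (by omega)]

theorem kill (L : ℕ) (z : ℕ → G) (hz : ∀ g, ∃ i < L, z i = g) (f g x : ℕ → G)
    (hf : ∀ i, i + 1 < L → f (i + 1) = f i * g (i + 1))
    (hx : ∀ i < L, x (i + 1) = (g i)⁻¹ * x i * g i * ((f i)⁻¹ * ((z (i - 1))⁻¹ * z i) * f i)) :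
    ∃ i < L, x (i + 1) = 1 := by
  have key : ∀ i < L, f i * x (i + 1) * (f i)⁻¹ = f 0 * x 1 * (f 0)⁻¹ * (z 0)⁻¹ * z i := by
    intro i
    induction i with
    | zero => intro _; group
    | succ i ih =>
      intro hi
      have h1 := ih (by omega)
      rw [hx (i + 1) hi, Nat.add_sub_cancel]
      calc _ = (f (i + 1) * (g (i + 1))⁻¹) * x (i + 1) * (f (i + 1) * (g (i + 1))⁻¹)⁻¹ *
            ((z i)⁻¹ * z (i + 1)) := by group
        _ = f i * x (i + 1) * (f i)⁻¹ * ((z i)⁻¹ * z (i + 1)) := by rw [hf i hi]; group
        _ = _ := by rw [h1]; group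
  obtain ⟨i, hi, e⟩ := hz (z 0 * (f 0 * x 1 * (f 0)⁻¹)⁻¹)
  refine ⟨i, hi, ?_⟩
  have h1 := key i hi
  rw [e] at h1
  calc x (i + 1) = (f i)⁻¹ * (f i * x (i + 1) * (f i)⁻¹) * f i := by group
    _ = 1 := by rw [h1]; group

open Classical in
noncomputable def rop (o : A) {L : ℕ} (i : ℕ) (b : A) (r : Fin L → A) : Fin L → A :=
  fun s => if s.val = i then Equiv.swap b o (r s) else r s

theorem rop_inj (o : A) {L : ℕ} (i : ℕ) (b : A) :
    Function.Injective (rop o i b : (Fin L → A) → (Fin L → A)) := by
  intro r r' h
  funext s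
  have := congrFun h s
  simp only [rop] at this
  split_ifs at this
  · exact Equiv.injective _ this
  · exact this

open Classical in
theorem rop_seq (o : A) {L : ℕ} (b : ℕ → A) (r : ℕ → Fin L → A)
    (h : ∀ i < L, r (i + 1) = rop o i (b i) (r i)) (i : ℕ) (hi : i ≤ L) (s : Fin L) :
    r i s = if s.val < i then Equiv.swap (b s) o (r 0 s) else r 0 s := by
  induction i with
  | zero => simp
  | succ i ih =>
    rw [h i hi, rop, ih (by omega)]
    by_cases h1 : s.val = i
    · simp [h1]
    · by_cases h2 : s.val < i
      · simp [h1, h2, show s.val < i + 1 by omega]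
      · simp [h1, h2, show ¬ s.val < i + 1 by omega]

def rext (o : A) {L : ℕ} (r : Fin L → A) (i : ℕ) : A := if h : i < L then r ⟨i, h⟩ else o

theorem oracle [Finite A] [Finite G] (o : A) (Γ : A → A → G) :
    ∃ (U : Type) (_ : Finite U) (_ : Nonempty U) (T : ℕ) (κ : ℕ → A → U → U)
      (β : ℕ → A → U → G), 0 < T ∧ (∀ k b, Function.Injective (κ k b)) ∧
      ∀ (B : ℕ → A) (g x : ℕ → G) (u : ℕ → U),
        (∀ k, k + 1 < T → g (k + 1) = Γ (B k) (B (k + 1))) →
        (∀ k < T, x (k + 1) = (g k)⁻¹ * x k * g k * β k (B k) (u k)) →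
        (∀ k < T, u (k + 1) = κ k (B k) (u k)) →
        ∃ k, 0 < k ∧ k ≤ T ∧ x k = 1 := by
  classical
  obtain ⟨L, z, hL, hz⟩ : ∃ (L : ℕ) (z : ℕ → G), 0 < L ∧ ∀ g, ∃ i < L, z i = g :=
    ⟨Nat.card G, rext 1 (Finite.equivFin G).symm, Nat.card_pos, fun g =>
      ⟨(Finite.equivFin G g).val, (Finite.equivFin G g).isLt, by simp [rext]⟩⟩
  obtain ⟨J, Φ, hΦ⟩ := exists_compress (Fin L → A) (fun _ => o)
  let κ : ℕ → A → (Fin J → Fin L → A) × (Fin L → A) → (Fin J → Fin L → A) × (Fin L → A) :=
    fun k b u => if k < J * L then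
      (fun j => if j.val = k / L then rop o (k % L) b (u.1 j) else u.1 j, u.2)
      else Φ.symm ((Φ u).1, rop o (k % L) b (Φ u).2)
  let F : ℕ → A → (Fin J → Fin L → A) × (Fin L → A) → G :=
    fun k b u => if k < J * L then
      (tailP Γ (rext o (rext (fun _ => o) u.1 (k / L))) (L - 1 - k % L) (k % L))⁻¹
      else headP Γ (rext o (rop o (k % L) b (Φ u).2)) (k % L)
  refine ⟨(Fin J → Fin L → A) × (Fin L → A), inferInstance, ⟨(fun _ _ => o, fun _ => o)⟩,
    J * L + L, κ, fun k b u => (F k b u)⁻¹ * ((z (k % L - 1))⁻¹ * z (k % L)) * F k b u,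
    by omega, ?_, ?_⟩
  · intro k b u u' h
    simp only [κ] at h
    split_ifs at h
    · simp only [Prod.mk.injEq] at h
      refine Prod.ext (funext fun j => ?_) h.2
      have := congrFun h.1 j
      split_ifs at this
      · exact rop_inj _ _ _ this
      · exact this
    · have h1 := Φ.symm.injective h
      simp only [Prod.mk.injEq] at h1
      exact Φ.injective (Prod.ext h1.1 (rop_inj _ _ _ h1.2))
  · intro B g x u hg hx hu
    have hdiv : ∀ j i, i < L → (j * L + i) / L = j := fun j i hi => by
      rw [Nat.add_comm, Nat.add_mul_div_right _ _ hL, Nat.div_eq_of_lt hi, Nat.zero_add]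
    have hmod : ∀ j i, i < L → (j * L + i) % L = i := fun j i hi => by
      rw [Nat.add_comm, Nat.add_mul_mod_self_right, Nat.mod_eq_of_lt hi]
    by_cases hex : ∃ j : Fin J, (u (j.val * L + L)).1 j = fun _ => o
    · obtain ⟨j, hj⟩ := hex
      have hjL : j.val * L + L ≤ J * L := by
        rw [← Nat.succ_mul]; exact Nat.mul_le_mul_right _ j.isLt
      have hseq := rop_seq o (fun i => B (j.val * L + i)) (fun i => (u (j.val * L + i)).1 j) (by
        intro i hi
        rw [← Nat.add_assoc, hu _ (by omega)]
        simp only [κ, if_pos (show j.val * L + i < J * L by omega), hdiv _ _ hi, hmod _ _ hi,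
          if_true])
      have hv : ∀ s : Fin L, (u (j.val * L)).1 j s = B (j.val * L + s) := by
        intro s
        have h1 := hseq L le_rfl s
        simp only [hj, s.isLt, if_true, Nat.add_zero] at h1
        have h2 := congrArg (Equiv.swap (B (j.val * L + s)) o) h1
        simpa using h2.symm
      obtain ⟨i, hi, e⟩ := kill L z hz
        (fun i => (tailP Γ (fun s => B (j.val * L + s)) (L - 1 - i) i)⁻¹)
        (fun i => g (j.val * L + i)) (fun i => x (j.val * L + i)) (by
          intro i hi
          rw [show L - 1 - i = L - 1 - (i + 1) + 1 by omega, tailP, ← Nat.add_assoc,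
            hg _ (by omega)]
          group) (by
          intro i hi
          rw [← Nat.add_assoc, hx _ (by omega)]
          have : F (j.val * L + i) (B (j.val * L + i)) (u (j.val * L + i)) =
              (tailP Γ (fun s => B (j.val * L + s)) (L - 1 - i) i)⁻¹ := by
            simp only [F, if_pos (show j.val * L + i < J * L by omega), hdiv _ _ hi, hmod _ _ hi]
            congr 1
            apply tailP_congr
            intro s h1 h2
            have h3 : s < L := by omega
            have h4 := hseq i (by omega) ⟨s, h3⟩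
            simp only [show ¬ s < i by omega, if_false, Nat.add_zero] at h4
            simp only [rext, dif_pos h3, dif_pos j.isLt, Fin.eta, h4]
            exact hv ⟨s, h3⟩
          simp only [this, hmod _ _ hi])
      exact ⟨j.val * L + (i + 1), by omega, by omega, e⟩
    · have hconst : ∀ (j : Fin J) (t : ℕ), j.val * L + L + t ≤ J * L →
          (u (j.val * L + L + t)).1 j = (u (j.val * L + L)).1 j := by
        intro j t
        induction t with
        | zero => intro _; rfl
        | succ t ih =>
          intro ht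
          rw [← Nat.add_assoc, hu _ (by omega), ← ih (by omega)]
          have : j.val ≠ (j.val * L + L + t) / L := by
            have : j.val + 1 ≤ (j.val * L + L + t) / L := by
              rw [Nat.le_div_iff_mul_le hL, Nat.succ_mul]; omega
            omega
          simp only [κ, if_pos (show j.val * L + L + t < J * L by omega), if_neg this]
      have h0 : (Φ (u (J * L))).2 = fun _ => o := by
        apply hΦ
        intro j hj
        apply hex
        have hjL : j.val * L + L ≤ J * L := by
          rw [← Nat.succ_mul]; exact Nat.mul_le_mul_right _ j.isLt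
        obtain ⟨t, ht⟩ := Nat.exists_eq_add_of_le hjL
        exact ⟨j, by rw [← hconst j t (by omega), ← ht]; exact hj⟩
      have hstep : ∀ i < L, (Φ (u (J * L + (i + 1)))).2 =
          rop o i (B (J * L + i)) (Φ (u (J * L + i))).2 := by
        intro i hi
        rw [← Nat.add_assoc, hu _ (by omega)]
        simp only [κ, if_neg (show ¬ J * L + i < J * L by omega), hmod _ _ hi,
          Equiv.apply_symm_apply]
      have hseq := rop_seq o (fun i => B (J * L + i)) (fun i => (Φ (u (J * L + i))).2) hstep
      obtain ⟨i, hi, e⟩ := kill L z hz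
        (fun i => headP Γ (fun s => B (J * L + s)) i)
        (fun i => g (J * L + i)) (fun i => x (J * L + i)) (by
          intro i hi
          rw [headP, ← Nat.add_assoc, hg _ (by omega)]) (by
          intro i hi
          rw [← Nat.add_assoc, hx _ (by omega)]
          have : F (J * L + i) (B (J * L + i)) (u (J * L + i)) =
              headP Γ (fun s => B (J * L + s)) i := by
            simp only [F, if_neg (show ¬ J * L + i < J * L by omega), hmod _ _ hi]
            apply headP_congr
            intro s h1
            have h3 : s < L := by omega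
            have h4 := hseq (i + 1) (by omega) ⟨s, h3⟩
            simp only [show s < i + 1 by omega, if_true, Nat.add_zero, h0,
              Equiv.swap_apply_right] at h4
            simp only [rext, dif_pos h3, ← hstep i hi, h4]
          simp only [this, hmod _ _ hi])
      exact ⟨J * L + (i + 1), by omega, by omega, e⟩

end

end Pool.Agent.MP_df6b17_lc
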