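import Pool.Agent.MP_df6b17_lc.Multi
import Pool.Agent.MP_df6b17_lc.Oracle

/-!
Every group valued function on words whose increments have finite memory is recognised.
-/

set_option autoImplicit false

namespace Pool.Agent.MP_df6b17_lc

section
variable {α G : Type} [Group G]

/-- increment of `F` -/
def DD (F : List α → G) (z v : List α) : G := (F z)⁻¹ * F (z ++ v)

def DMem (n : ℕ) (F : List α → G) : Prop := ∀ v, Mem n (fun z => DD F z v)

theorem DD_nil (F : List α → G) (z : List α) : DD F z [] = 1 := by simp [DD]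

theorem DD_append (F : List α → G) (z u v : List α) :
    DD F z (u ++ v) = DD F z u * DD F (z ++ u) v := by
  simp only [DD, List.append_assoc]; group

def blk (n : ℕ) (z : List α) : {l : List α // l.length ≤ n} := ⟨suf n z, suf_length_le _ _⟩

def cc (F : List α → G) (z : List α) : G := (F z.dropLast)⁻¹ * F z

theorem cc_concat (F : List α → G) (z : List α) (b : α) : cc F (z ++ [b]) = DD F z [b] := by
  simp [cc, DD]

variable {U : Type}

def gπ (F : List α → G) (n T : ℕ) (κ : ℕ → {l : List α // l.length ≤ n} → U → U)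
    (β : ℕ → {l : List α // l.length ≤ n} → U → G) (z : List α) (s : G × U × ZMod (n * T)) :
    G × U × ZMod (n * T) :=
  if (s.2.2.val + 1) % n = 0 then
    ((cc F z)⁻¹ * s.1 * cc F z * β (s.2.2.val / n) (blk n z) s.2.1,
      κ (s.2.2.val / n) (blk n z) s.2.1, s.2.2 + 1)
  else ((cc F z)⁻¹ * s.1 * cc F z, s.2.1, s.2.2 + 1)

variable {F : List α → G} {n T : ℕ} {κ : ℕ → {l : List α // l.length ≤ n} → U → U}
  {β : ℕ → {l : List α // l.length ≤ n} → U → G}

theorem gπ_time (z : List α) (s : G × U × ZMod (n * T)) : (gπ F n T κ β z s).2.2 = s.2.2 + 1 := by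
  unfold gπ; split_ifs <;> rfl

theorem gπ_inj (hκ : ∀ k b, Function.Injective (κ k b)) (z : List α) :
    Function.Injective (gπ F n T κ β z) := by
  rintro ⟨x, u, τ⟩ ⟨x', u', τ'⟩ h
  have h1 := congrArg (fun s => s.2.2) h
  simp only [gπ_time, add_left_inj] at h1
  subst h1
  simp only [gπ] at h
  split_ifs at h
  · simp only [Prod.mk.injEq, and_true] at h
    obtain rfl := hκ _ _ h.2
    simpa using h.1
  · simpa using h

theorem run_time (z : List α) (s : G × U × ZMod (n * T)) (v : List α) :
    (run (gπ F n T κ β) z s v).2.2 = s.2.2 + (v.length : ZMod (n * T)) := by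
  induction v generalizing z s with
  | nil => simp
  | cons b v ih => rw [run_cons, ih, gπ_time]; simp; ring

theorem run_theta (z : List α) (u : U) (τ : ZMod (n * T)) (v : List α) :
    ∃ b u' τ', ∀ x, run (gπ F n T κ β) z (x, u, τ) v = ((DD F z v)⁻¹ * x * b, u', τ') := by
  induction v using List.reverseRecOn with
  | nil => exact ⟨1, u, τ, fun x => by simp [DD_nil]⟩
  | append_singleton v a ih =>
    obtain ⟨b, u', τ', h⟩ := ih
    by_cases hc : (τ'.val + 1) % n = 0
    · refine ⟨b * DD F (z ++ v) [a] * β (τ'.val / n) (blk n (z ++ v ++ [a])) u',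
        κ (τ'.val / n) (blk n (z ++ v ++ [a])) u', τ' + 1, fun x => ?_⟩
      rw [run_concat, h, gπ, if_pos hc, cc_concat, DD_append]
      simp only [Prod.mk.injEq, and_true]
      group
    · refine ⟨b * DD F (z ++ v) [a], u', τ' + 1, fun x => ?_⟩
      rw [run_concat, h, gπ, if_neg hc, cc_concat, DD_append]
      simp only [Prod.mk.injEq, and_true]
      group

theorem run_inblock {k : ℕ} (hk : k < T) (z : List α) (x : G) (u : U) (v : List α)
    (hv : v.length < n) :
    run (gπ F n T κ β) z (x, u, ((n * k : ℕ) : ZMod (n * T))) v =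
      ((DD F z v)⁻¹ * x * DD F z v, u, ((n * k + v.length : ℕ) : ZMod (n * T))) := by
  induction v using List.reverseRecOn with
  | nil => simp [DD_nil]
  | append_singleton v a ih =>
    simp only [List.length_append, List.length_singleton] at hv
    have h1 : n * k + n ≤ n * T := by rw [← Nat.mul_succ]; exact Nat.mul_le_mul_left _ hk
    rw [run_concat, ih (by omega), gπ, if_neg, cc_concat, DD_append]
    · simp only [Prod.mk.injEq, true_and, List.length_append, List.length_singleton]
      constructor
      · group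
      · push_cast; ring
    · simp only
      rw [ZMod.val_cast_of_lt (by omega), Nat.add_assoc, Nat.mul_add_mod, Nat.mod_eq_of_lt hv]
      omega

theorem run_block {k : ℕ} (hk : k < T) (hn : 0 < n) (z : List α) (x : G) (u : U) (v : List α)
    (hv : v.length = n) :
    run (gπ F n T κ β) z (x, u, ((n * k : ℕ) : ZMod (n * T))) v =
      ((DD F z v)⁻¹ * x * DD F z v * β k (blk n (z ++ v)) u, κ k (blk n (z ++ v)) u,
        ((n * (k + 1) : ℕ) : ZMod (n * T))) := by
  obtain ⟨v, a, rfl⟩ : ∃ w a, v = w ++ [a] :=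
    ⟨_, _, (List.dropLast_append_getLast (by rintro rfl; simp at hv; omega)).symm⟩
  simp only [List.length_append, List.length_singleton] at hv
  have h1 : n * k + n ≤ n * T := by rw [← Nat.mul_succ]; exact Nat.mul_le_mul_left _ hk
  have h2 : (n * k + v.length) / n = k := by
    rw [Nat.mul_add_div hn, Nat.div_eq_of_lt (by omega), Nat.add_zero]
  have h3 : ((n * k + v.length : ℕ) : ZMod (n * T)).val = n * k + v.length :=
    ZMod.val_cast_of_lt (by omega)
  rw [run_concat, run_inblock hk _ _ _ _ (by omega), gπ, if_pos, cc_concat, DD_append]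
  · simp only [h3, h2, Prod.mk.injEq, List.append_assoc, true_and]
    constructor
    · group
    · rw [Nat.mul_succ, ← hv]; push_cast; ring
  · simp only
    rw [h3, Nat.add_assoc, hv, Nat.mul_add_mod, Nat.mod_self]

theorem mem_gπ {n0 : ℕ} (hF : DMem n0 F) (hn : n = n0 + 1) : Mem n (gπ F n T κ β) := by
  intro z z' y hy
  obtain ⟨y, a, rfl⟩ : ∃ w a, y = w ++ [a] :=
    ⟨_, _, (List.dropLast_append_getLast (by rintro rfl; simp at hy; omega)).symm⟩
  have h1 : cc F (z ++ (y ++ [a])) = cc F (z' ++ (y ++ [a])) := by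
    rw [← List.append_assoc, ← List.append_assoc, cc_concat, cc_concat]
    exact hF [a] z z' y (by simp at hy; omega)
  have h2 : blk n (z ++ (y ++ [a])) = blk n (z' ++ (y ++ [a])) :=
    Subtype.ext (Mem_suf n z z' _ hy)
  funext s
  simp only [gπ, h1, h2]

theorem cut_gπ {n0 : ℕ} (hF : DMem n0 F) (hn : n = n0 + 1) (hT : 0 < T)
    (hκ : ∀ k b, Function.Injective (κ k b))
    (hO : ∀ (B : ℕ → {l : List α // l.length ≤ n}) (g x : ℕ → G) (u : ℕ → U),
        (∀ k, k + 1 < T → g (k + 1) = DD F (B k).1 (B (k + 1)).1) →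
        (∀ k < T, x (k + 1) = (g k)⁻¹ * x k * g k * β k (B k) (u k)) →
        (∀ k < T, u (k + 1) = κ k (B k) (u k)) →
        ∃ k, 0 < k ∧ k ≤ T ∧ x k = 1) :
    Cut (gπ F n T κ β) (fun s => s.1 = 1 ∧ s.2.2.val % n = 0) (n * T + n * T) where
  inj := gπ_inj hκ
  forget := by
    rintro ⟨x, u, τ⟩ ⟨hx, hτ⟩ z v
    have hn0 : 0 < n := by omega
    have : NeZero (n * T) := ⟨(Nat.mul_pos hn0 hT).ne'⟩
    simp only at hx hτ
    subst hx
    obtain ⟨k, hk⟩ := Nat.dvd_of_mod_eq_zero hτ
    have hkT : k < T := by
      have := ZMod.val_lt τ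
      rw [hk] at this
      exact Nat.lt_of_mul_lt_mul_left this
    have e : τ = ((n * k : ℕ) : ZMod (n * T)) := by rw [← hk, ZMod.natCast_zmod_val]
    rw [e]
    rcases lt_or_ge v.length n with hv | hv
    · rw [run_inblock hkT _ _ _ _ hv, run_inblock hkT _ _ _ _ hv]
      simp
    · have hl : (v.take n).length = n := by simp [hv]
      rw [← List.take_append_drop n v, run_append, run_append, run_block hkT hn0 _ _ _ _ hl,
        run_block hkT hn0 _ _ _ _ hl, run_mem (mem_gπ hF hn) z [] _ hl.ge]
      have h2 : blk n (z ++ v.take n) = blk n ([] ++ v.take n) :=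
        Subtype.ext (Mem_suf n z [] _ hl.ge)
      simp [h2]
  ret := by
    intro z ω v hv
    have hn0 : 0 < n := by omega
    have : NeZero (n * T) := ⟨(Nat.mul_pos hn0 hT).ne'⟩
    have hi := ZMod.val_lt (-ω.2.2)
    set i := (-ω.2.2).val with hidef
    have hle : ∀ k ≤ T, n * k ≤ n * T := fun k hk => Nat.mul_le_mul_left _ hk
    have htime : ∀ k ≤ T, (run (gπ F n T κ β) z ω (v.take (i + n * k))).2.2 =
        ((n * k : ℕ) : ZMod (n * T)) := by
      intro k hk
      have := hle k hk
      rw [run_time, List.length_take, min_eq_left (by omega), Nat.cast_add, hidef,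
        ZMod.natCast_zmod_val]
      ring
    have hblk : ∀ k < T, ((v.drop (i + n * k)).take n).length = n := by
      intro k hk
      have := hle (k + 1) hk
      rw [Nat.mul_succ] at this
      simp only [List.length_take, List.length_drop]
      omega
    have hsplit : ∀ k, v.take (i + n * (k + 1)) =
        v.take (i + n * k) ++ (v.drop (i + n * k)).take n := by
      intro k
      rw [Nat.mul_succ, ← Nat.add_assoc, List.take_add]
    have hstep : ∀ k < T, run (gπ F n T κ β) z ω (v.take (i + n * (k + 1))) =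
        ((DD F (z ++ v.take (i + n * k)) ((v.drop (i + n * k)).take n))⁻¹ *
          (run (gπ F n T κ β) z ω (v.take (i + n * k))).1 *
          DD F (z ++ v.take (i + n * k)) ((v.drop (i + n * k)).take n) *
          β k (blk n (z ++ v.take (i + n * (k + 1))))
            (run (gπ F n T κ β) z ω (v.take (i + n * k))).2.1,
          κ k (blk n (z ++ v.take (i + n * (k + 1))))
            (run (gπ F n T κ β) z ω (v.take (i + n * k))).2.1,
          ((n * (k + 1) : ℕ) : ZMod (n * T))) := by
      intro k hk
      have e : run (gπ F n T κ β) z ω (v.take (i + n * k)) =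
          ((run (gπ F n T κ β) z ω (v.take (i + n * k))).1,
            (run (gπ F n T κ β) z ω (v.take (i + n * k))).2.1,
            ((n * k : ℕ) : ZMod (n * T))) := by
        rw [← htime k hk.le]
      conv_lhs => rw [hsplit, run_append, e, run_block hk hn0 _ _ _ _ (hblk k hk),
        List.append_assoc, ← hsplit]
    obtain ⟨k, h1, h2, h3⟩ := hO (fun k => blk n (z ++ v.take (i + n * (k + 1))))
      (fun k => DD F (z ++ v.take (i + n * k)) ((v.drop (i + n * k)).take n))
      (fun k => (run (gπ F n T κ β) z ω (v.take (i + n * k))).1)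
      (fun k => (run (gπ F n T κ β) z ω (v.take (i + n * k))).2.1)
      (by
        intro k hk
        simp only [blk]
        rw [hsplit (k + 1), ← List.append_assoc, suf_append _ _ (hblk _ hk).ge,
          suf_of_le (hblk _ hk).le]
        have := ((hF ((v.drop (i + n * (k + 1))).take n)).mono (show n0 ≤ n by omega)).suf
          (z ++ v.take (i + n * (k + 1))) []
        simpa using this.symm)
      (fun k hk => by rw [hstep k hk])
      (fun k hk => by rw [hstep k hk])
    have := hle k h2
    refine ⟨i + n * k, by have := Nat.mul_pos hn0 h1; omega, by omega, h3, ?_⟩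
    rw [htime k h2, ZMod.val_natCast, Nat.mod_mod_of_dvd _ (Dvd.intro _ rfl), Nat.mul_mod_right]

variable {W : (k : ℕ) → Set (Set (List (Fin k)))}

theorem rec_central (hW : Closed W) [Finite α] [Nonempty α] [Finite G] {n0 : ℕ}
    (hF : DMem n0 F) : ∃ lam : ℕ, ∀ h0 y0 : List α, lam ≤ h0.length → lam ≤ y0.length →
      ∃ (T : Type) (R : List α → T), Rec W R ∧ ∀ w w', R w = R w' →
        ∀ x, DD F [] (h0 ++ w' ++ y0) * (DD F [] (h0 ++ w ++ y0))⁻¹ * x =
          x * (DD F [] (h0 ++ w' ++ y0) * (DD F [] (h0 ++ w ++ y0))⁻¹) := by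
  have : Finite {l : List α // l.length ≤ n0 + 1} := (List.finite_length_le α _).to_subtype
  obtain ⟨U, _, ⟨u0⟩, T, κ, β, hT, hκ, hO⟩ :=
    oracle (A := {l : List α // l.length ≤ n0 + 1}) ⟨[], by simp⟩ (fun B B' => DD F B.1 B'.1)
  have : NeZero ((n0 + 1) * T) := ⟨(Nat.mul_pos (by omega) hT).ne'⟩
  have hc := cut_gπ hF rfl hT hκ hO
  refine ⟨(n0 + 1) * T + (n0 + 1) * T + (n0 + 1), fun h0 y0 h1 h2 => ⟨_, _,
    hc.rec_run hW (mem_gπ hF rfl) h0 y0 (by omega) (by omega), fun w w' e x => ?_⟩⟩
  obtain ⟨b, u', τ', hb⟩ := run_theta (F := F) (κ := κ) (β := β) [] u0 0 (h0 ++ w ++ y0)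
  obtain ⟨b', u'', τ'', hb'⟩ := run_theta (F := F) (κ := κ) (β := β) [] u0 0 (h0 ++ w' ++ y0)
  have e1 := congrArg Prod.fst ((hb x).symm.trans ((congrFun e (x, u0, 0)).trans (hb' x)))
  have e2 := congrArg Prod.fst ((hb 1).symm.trans ((congrFun e (1, u0, 0)).trans (hb' 1)))
  simp only [mul_one] at e1 e2
  generalize DD F [] (h0 ++ w' ++ y0) = a' at *
  generalize DD F [] (h0 ++ w ++ y0) = a at *
  calc a' * a⁻¹ * x = a' * (a⁻¹ * x * b) * (a⁻¹ * b)⁻¹ * a⁻¹ := by group
    _ = a' * (a'⁻¹ * x * b') * (a'⁻¹ * b')⁻¹ * a⁻¹ := by rw [e1, e2]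
    _ = x * (a' * a⁻¹) := by group

theorem rec_padded (hW : Closed W) [Finite α] [Nonempty α] [Finite G] {n0 : ℕ}
    (hF : DMem n0 F) : ∃ lam : ℕ, ∀ h0 y0 : List α, lam ≤ h0.length → lam ≤ y0.length →
      Rec W (fun w => F (h0 ++ w ++ y0)) := by
  classical
  let ι : G →* Equiv.Perm (G ⊕ Unit) :=
    (Equiv.Perm.sumCongrHom G Unit).comp ((MulAction.toPermHom G G).prod 1)
  have hD : ∀ z v, DD (fun w => ι (F w)) z v = ι (DD F z v) := by
    intro z v; simp only [DD, map_mul, map_inv]
  have hF' : DMem n0 (fun w => ι (F w)) := by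
    intro v z z' y hy
    simp only [hD]
    exact congrArg ι (hF v z z' y hy)
  obtain ⟨lam, h⟩ := rec_central hW hF'
  refine ⟨lam, fun h0 y0 h1 h2 => ?_⟩
  obtain ⟨T, R, hR, hR'⟩ := h h0 y0 h1 h2
  refine hR.determined (fun w w' _ _ e => ?_)
  have e1 := hR' w w' e (Equiv.swap (Sum.inr ()) (Sum.inl 1))
  rw [hD, hD, ← map_inv, ← map_mul] at e1
  have e2 := congrArg (fun σ : Equiv.Perm (G ⊕ Unit) => σ (Sum.inr ())) e1
  simp only [ι, Equiv.Perm.mul_apply, Equiv.swap_apply_left] at e2
  have e3 : DD F [] (h0 ++ w' ++ y0) * (DD F [] (h0 ++ w ++ y0))⁻¹ = 1 := by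
    simpa using e2
  rw [mul_inv_eq_one] at e3
  simp only [DD, List.nil_append] at e3
  exact (mul_left_cancel e3).symm

/-- one step of the padded cocycle -/
def pstep (F : List α → G) (s : G × List α) : Option α → G × List α
  | none => (s.1, [])
  | some a => (s.1 * DD F s.2 [a], s.2 ++ [a])

theorem pstep_foldl (g : G) (s : List α) (v : List (Option α)) :
    v.foldl (pstep F) (g, s) =
      (g * (v.foldl (pstep F) (1, s)).1, (v.foldl (pstep F) (1, s)).2) := by
  induction v generalizing g s with
  | nil => simp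
  | cons b v ih =>
    cases b with
    | none => simp only [List.foldl_cons, pstep]; exact ih _ _
    | some a =>
      simp only [List.foldl_cons, pstep]
      rw [ih (g * _), ih (1 * _)]
      simp [mul_assoc]

theorem pstep_congr (v : List (Option α)) (g : G) {s s' : List α}
    (h : ∀ w, DD F s w = DD F s' w) :
    (v.foldl (pstep F) (g, s)).1 = (v.foldl (pstep F) (g, s')).1 := by
  induction v generalizing g s s' with
  | nil => rfl
  | cons b v ih =>
    cases b with
    | none => rfl
    | some a =>
      simp only [List.foldl_cons, pstep, h [a]]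
      apply ih
      intro w
      have h1 := h ([a] ++ w)
      rw [DD_append, DD_append, h [a]] at h1
      exact mul_left_cancel h1

theorem pstep_snd (y : List (Option α)) :
    (∃ t, ∀ s, (y.foldl (pstep F) s).2 = t) ∨
      (∃ y' : List α, y'.length = y.length ∧ ∀ s, (y.foldl (pstep F) s).2 = s.2 ++ y') := by
  induction y using List.reverseRecOn with
  | nil => exact Or.inr ⟨[], rfl, fun s => by simp⟩
  | append_singleton y b ih =>
    cases b with
    | none => exact Or.inl ⟨[], fun s => by simp [pstep]⟩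
    | some a =>
      rcases ih with ⟨t, ht⟩ | ⟨y', h1, h2⟩
      · exact Or.inl ⟨t ++ [a], fun s => by simp [pstep, ht]⟩
      · exact Or.inr ⟨y' ++ [a], by simp [h1], fun s => by simp [pstep, h2]⟩

theorem pstep_none (g : G) (s : List α) (m : ℕ) :
    ((List.replicate m none).foldl (pstep F) (g, s)).1 = g ∧
      (s = [] → ((List.replicate m none).foldl (pstep F) (g, s)).2 = []) := by
  induction m generalizing s with
  | zero => simp
  | succ m ih =>
    simp only [List.replicate_succ, List.foldl_cons, pstep]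
    exact ⟨(ih []).1, fun _ => (ih []).2 rfl⟩

theorem pstep_some (g : G) (s w : List α) :
    (w.map some).foldl (pstep F) (g, s) = (g * DD F s w, s ++ w) := by
  induction w generalizing g s with
  | nil => simp [DD_nil]
  | cons a w ih =>
    simp only [List.map_cons, List.foldl_cons, pstep, ih]
    rw [show a :: w = [a] ++ w from rfl, DD_append]
    simp [mul_assoc]

theorem rec_cocycle (hW : Closed W) [Finite α] [Finite G] {n0 : ℕ} (hF : DMem n0 F) :
    Rec W F := by
  let F' : List (Option α) → G := fun z => (z.foldl (pstep F) (1, [])).1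
  have hD : ∀ z v, DD F' z v = (v.foldl (pstep F) (1, (z.foldl (pstep F) (1, [])).2)).1 := by
    intro z v
    simp only [DD, F', List.foldl_append]
    rw [pstep_foldl (z.foldl (pstep F) (1, [])).1 (z.foldl (pstep F) (1, [])).2 v]
    simp
  have hF' : DMem n0 F' := by
    intro v z z' y hy
    simp only [hD, List.foldl_append]
    rcases pstep_snd (F := F) y with ⟨t, ht⟩ | ⟨y', h1, h2⟩
    · rw [ht, ht]
    · rw [h2, h2]
      exact pstep_congr _ _ (fun w => hF w _ _ y' (by omega))
  obtain ⟨lam, h⟩ := rec_padded hW hF'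
  have h1 := (h (List.replicate lam none) (List.replicate lam none) (by simp) (by simp)).inv hW
    (fun a => [some a]) (fun a => by simp)
  have key : ∀ w : List α, F' (List.replicate lam none ++ w.flatMap (fun a => [some a]) ++
      List.replicate lam none) = DD F [] w := by
    intro w
    have e1 : w.flatMap (fun a => [some a]) = w.map some := by
      induction w with
      | nil => rfl
      | cons a w ih => simp [ih]
    have e2 : (List.replicate lam none).foldl (pstep F) (1, []) = (1, []) :=
      Prod.ext (pstep_none 1 [] lam).1 ((pstep_none 1 [] lam).2 rfl)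
    simp only [F', List.foldl_append, e1, e2, pstep_some, (pstep_none _ _ lam).1, one_mul]
  refine h1.determined (fun w w' _ _ e => ?_)
  rw [key, key] at e
  simpa [DD] using e

end

end Pool.Agent.MP_df6b17_lc
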