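import Mathlib

/-!
Finite maximal bifix codes of bounded degree: the index of an element, and a code with one
kernel word.
-/

set_option autoImplicit false

namespace Pool.Agent.MP_df6b17_lc.Deg

variable {α : Type}

/-- powers of a word -/
def pw (x : List α) (n : ℕ) : List α := (List.replicate n x).flatten

theorem pw_add (x : List α) (a b : ℕ) : pw x (a + b) = pw x a ++ pw x b := by
  rw [pw, pw, pw, List.replicate_add, List.flatten_append]

theorem pw_one (x : List α) : pw x 1 = x := by simp [pw]

theorem pw_len {x : List α} (hx : x ≠ []) (n : ℕ) : n ≤ (pw x n).length := by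
  have := List.length_pos_iff.2 hx
  induction n with
  | zero => simp
  | succ n ih => rw [pw_add, pw_one, List.length_append]; omega

theorem pw_flatMap {β : Type} (x : List α) (f : α → List β) (n : ℕ) :
    (pw x n).flatMap f = pw (x.flatMap f) n := by
  induction n with
  | zero => simp [pw]
  | succ n ih => rw [pw_add, pw_add, pw_one, pw_one, List.flatMap_append, ih]

/-- no initial part lies in the code -/
def NoPre (P : List α → Prop) (s : List α) : Prop := ∀ p, p <+: s → ¬ P p

open Classical in
/-- one step of the automaton of the code -/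
noncomputable def nxt (P : List α → Prop) (q : List α) (b : α) : List α :=
  if P (q ++ [b]) then [] else q ++ [b]

/-- the automaton of the code -/
noncomputable def dl (P : List α → Prop) (q w : List α) : List α := w.foldl (nxt P) q

/-- the states that are final parts of a word -/
def II (P : List α → Prop) (z : List α) : Set (List α) := {s | s <:+ z ∧ NoPre P s}

/-- bifix codes with bounded states -/
structure Code (P : List α → Prop) (N : ℕ) : Prop where
  ne : ¬ P []
  pre : ∀ p q, P p → P q → p <+: q → p = q
  suf : ∀ p q, P p → P q → p <:+ q → p = q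
  bd : ∀ s, NoPre P s → s.length ≤ N

variable {P : List α → Prop} {N : ℕ}

theorem dl_append (q u v : List α) : dl P q (u ++ v) = dl P (dl P q u) v := List.foldl_append

theorem II_fin (z : List α) : (II P z).Finite :=
  (List.finite_toSet z.tails).subset fun s hs => (List.mem_tails s z).2 hs.1

theorem II_mono (y z : List α) : II P z ⊆ II P (y ++ z) :=
  fun _ hs => ⟨hs.1.trans (List.suffix_append y z), hs.2⟩

theorem Code.nil_mem (h : Code P N) (z : List α) : [] ∈ II P z :=
  ⟨List.nil_suffix, fun p hp => by rw [List.prefix_nil.1 hp]; exact h.ne⟩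

theorem Code.II_long (h : Code P N) (y : List α) {z : List α} (hz : N ≤ z.length) :
    II P (y ++ z) = II P z :=
  Set.Subset.antisymm (fun s hs => ⟨List.suffix_of_suffix_length_le hs.1 (List.suffix_append y z)
    ((h.bd s hs.2).trans hz), hs.2⟩) (II_mono y z)

theorem suf_concat {q z : List α} (hq : q <:+ z) (b : α) : q ++ [b] <:+ z ++ [b] := by
  obtain ⟨t, rfl⟩ := hq
  exact ⟨t, by simp⟩

theorem Code.nxt_mem (h : Code P N) {q z : List α} (hq : q ∈ II P z) (b : α) :
    nxt P q b ∈ II P (z ++ [b]) := by
  unfold nxt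
  split_ifs with h1
  · exact h.nil_mem _
  · refine ⟨suf_concat hq.1 b, fun p hp => ?_⟩
    rcases List.prefix_concat_iff.1 hp with rfl | hp
    · exact h1
    · exact hq.2 p hp

theorem Code.nxt_inj (h : Code P N) {q q' z : List α} (hq : q ∈ II P z) (hq' : q' ∈ II P z) (b : α)
    (e : nxt P q b = nxt P q' b) : q = q' := by
  unfold nxt at e
  split_ifs at e with h1 h2 h2
  · rcases List.suffix_or_suffix_of_suffix (suf_concat hq.1 b) (suf_concat hq'.1 b) with h3 | h3
    · exact List.append_cancel_right (h.suf _ _ h1 h2 h3)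
    · exact (List.append_cancel_right (h.suf _ _ h2 h1 h3)).symm
  · simp at e
  · simp at e
  · exact List.append_cancel_right e

theorem Code.dl_mem (h : Code P N) (w : List α) {q z : List α} (hq : q ∈ II P z) :
    dl P q w ∈ II P (z ++ w) := by
  induction w generalizing q z with
  | nil => simpa [dl] using hq
  | cons b w ih => simpa [dl] using ih (h.nxt_mem hq b)

theorem Code.dl_inj (h : Code P N) (w : List α) {q q' z : List α} (hq : q ∈ II P z)
    (hq' : q' ∈ II P z) (e : dl P q w = dl P q' w) : q = q' := by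
  induction w generalizing q q' z with
  | nil => exact e
  | cons b w ih => exact h.nxt_inj hq hq' b (ih (h.nxt_mem hq b) (h.nxt_mem hq' b) e)

theorem dl_noPre (w : List α) {q : List α} (hq : NoPre P (q ++ w)) : dl P q w = q ++ w := by
  induction w generalizing q with
  | nil => simp [dl]
  | cons b w ih =>
    have h1 : nxt P q b = q ++ [b] := if_neg (hq _ ⟨w, by simp⟩)
    have h2 := ih (q := q ++ [b]) (by simpa using hq)
    change dl P (nxt P q b) w = _
    rw [h1, h2]
    simp

theorem Code.star (h : Code P N) (w : List α) :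
    (∃ l : List (List α), (∀ p ∈ l, P p) ∧ w = l.flatten) ↔ dl P [] w = [] := by
  constructor
  · rintro ⟨l, hl, rfl⟩
    induction l with
    | nil => rfl
    | cons p l ih =>
      have hp := hl p List.mem_cons_self
      have h1 : dl P [] p = [] := by
        rcases List.eq_nil_or_concat p with rfl | ⟨s, b, rfl⟩
        · rfl
        · rw [List.concat_eq_append] at hp ⊢
          rw [dl_append, dl_noPre s (q := []) (fun r hr hP => by
            have h2 := h.pre _ _ hP hp (hr.trans (List.prefix_append _ _))
            have h3 := hr.length_le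
            rw [h2] at h3
            simp at h3)]
          exact if_pos hp
      rw [List.flatten_cons, dl_append, h1]
      exact ih fun p hp => hl p (List.mem_cons_of_mem _ hp)
  · have : ∃ l : List (List α), (∀ p ∈ l, P p) ∧ w = l.flatten ++ dl P [] w := by
      induction w using List.reverseRecOn with
      | nil => exact ⟨[], by simp, rfl⟩
      | append_singleton w b ih =>
        obtain ⟨l, h1, h2⟩ := ih
        rw [dl_append]
        change ∃ l : List (List α), _ ∧ _ = l.flatten ++ nxt P (dl P [] w) b
        unfold nxt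
        split_ifs with h3
        · refine ⟨l ++ [dl P [] w ++ [b]], fun p hp => ?_, ?_⟩
          · rcases List.mem_append.1 hp with hp | hp
            · exact h1 p hp
            · rw [List.mem_singleton.1 hp]; exact h3
          · conv_lhs => rw [h2]
            simp
        · exact ⟨l, h1, by rw [← List.append_assoc, ← h2]⟩
    intro e
    rw [e] at this
    simpa using this

theorem Code.img (h : Code P N) (z w : List α) :
    ((fun q => dl P q w) '' II P z).ncard = (II P z).ncard :=
  Set.InjOn.ncard_image fun _ h1 _ h2 e => h.dl_inj w h1 h2 e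

theorem Code.img_sub (h : Code P N) (z w : List α) :
    (fun q => dl P q w) '' II P z ⊆ II P (z ++ w) := by
  rintro _ ⟨q, hq, rfl⟩
  exact h.dl_mem w hq

theorem Code.card_mono (h : Code P N) (z w : List α) : (II P z).ncard ≤ (II P (z ++ w)).ncard :=
  (h.img z w).ge.trans (Set.ncard_le_ncard (h.img_sub z w) (II_fin _))

theorem Code.card_le (h : Code P N) (z : List α) {y : List α} (hy : N ≤ y.length) :
    (II P z).ncard ≤ (II P y).ncard := by
  rw [← h.II_long z hy]
  exact h.card_mono z y

/-- no new state appears -/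
def Sur (P : List α → Prop) (z w : List α) : Prop :=
  II P (z ++ w) ⊆ (fun q => dl P q w) '' II P z

theorem Sur.ext {z w : List α} (hs : Sur P z w) (y : List α) : Sur P (y ++ z) w := by
  intro s h1
  rcases List.suffix_or_suffix_of_suffix h1.1 (List.suffix_append (y ++ z) w) with h2 | ⟨t, rfl⟩
  · obtain ⟨q, hq, e⟩ := hs ⟨h2.trans (List.suffix_append z w), h1.2⟩
    exact ⟨q, II_mono y z hq, e⟩
  · obtain ⟨⟨r, hr⟩, h2⟩ := h1
    refine ⟨t, ⟨⟨r, List.append_cancel_right (by rw [← hr, List.append_assoc])⟩,
      fun p hp => h2 p (hp.trans (List.prefix_append _ _))⟩, dl_noPre w h2⟩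

theorem Code.sur_le (h : Code P N) {z w : List α} (hs : Sur P z w) :
    (II P (z ++ w)).ncard ≤ (II P z).ncard :=
  (Set.ncard_le_ncard hs ((II_fin z).image _)).trans (h.img z w).le

theorem Code.not_sur (h : Code P N) {z w : List α} (hs : ¬ Sur P z w) :
    (II P z).ncard < (II P (z ++ w)).ncard :=
  (h.img z w).ge.trans_lt (Set.ncard_lt_ncard ⟨h.img_sub z w, hs⟩ (II_fin _))

theorem Code.growth (h : Code P N) {x : List α} (hx : x ≠ []) (j : ℕ) :
    min (II P (pw x N)).ncard (j + 1) ≤ (II P (pw x j)).ncard := by
  induction j with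
  | zero => exact (min_le_right _ _).trans ((Set.ncard_pos (II_fin _)).2 ⟨_, h.nil_mem _⟩)
  | succ j ih =>
    rw [pw_add, pw_one]
    by_cases hs : Sur P (pw x j) x
    · have h1 : ∀ i, (II P (pw x (i + j))).ncard ≤ (II P (pw x j)).ncard := by
        intro i
        induction i with
        | zero => rw [Nat.zero_add]
        | succ i ih =>
          have := h.sur_le (hs.ext (pw x i))
          rw [← pw_add] at this
          rw [Nat.add_right_comm, pw_add, pw_one]
          exact this.trans ih
      have h2 := h.card_le (pw x N) ((Nat.le_add_right N j).trans (pw_len hx (N + j)))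
      exact (min_le_left _ _).trans (h2.trans ((h1 N).trans (h.card_mono _ _)))
    · have := h.not_sur hs
      omega

theorem Code.fix (h : Code P N) {x : List α} (hx : x ≠ []) {m : ℕ}
    (hm : ∀ r, 1 ≤ r → r ≤ (II P (pw x N)).ncard → r ∣ m) {k : ℕ} {s : List α}
    (hs : s ∈ II P (pw x k)) : dl P s (pw x m) = s := by
  have hT : ∀ i, II P (pw x (i + N)) = II P (pw x N) := fun i => by
    rw [pw_add, h.II_long _ (pw_len hx N)]
  have h0 : s ∈ II P (pw x N) := by
    rw [← hT k, Nat.add_comm, pw_add]
    exact II_mono _ _ hs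
  have h1 : ∀ i, dl P s (pw x i) ∈ II P (pw x N) := fun i => by
    have := h.dl_mem (pw x i) h0
    rwa [← pw_add, Nat.add_comm, hT] at this
  have key : ∀ i j, i < j → j ≤ (II P (pw x N)).ncard → dl P s (pw x i) = dl P s (pw x j) →
      dl P s (pw x m) = s := by
    intro i j hij hj e
    obtain ⟨r, rfl⟩ := Nat.exists_eq_add_of_le' hij.le
    rw [pw_add, dl_append] at e
    have h2 := (h.dl_inj _ h0 (h1 r) e).symm
    obtain ⟨t, rfl⟩ := hm r (by omega) (by omega)
    clear hm
    induction t with
    | zero => rfl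
    | succ t ih => rw [Nat.mul_succ, pw_add, dl_append, ih, h2]
  obtain ⟨i, hi, j, hj, hne, e⟩ := Set.exists_ne_map_eq_of_ncard_lt_of_maps_to
    (s := Set.Iic (II P (pw x N)).ncard) (t := II P (pw x N)) (f := fun i => dl P s (pw x i))
    (by rw [Set.ncard_Iic_nat]; omega) (fun i _ => h1 i) (II_fin _)
  rcases lt_or_gt_of_ne hne with h3 | h3
  · exact key i j h3 hj e
  · exact key j i h3 hi e.symm

theorem Code.extra (h : Code P N) {a y q : List α} (v : List α) {d : ℕ}
    (hd : ∀ z, (II P z).ncard ≤ d) (hy : d ≤ (II P y).ncard + 1) (hq : q ∈ II P (a ++ y))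
    (hq' : q ∉ II P y) : dl P q v = [] ↔ ∀ s ∈ II P y, dl P s v ≠ [] := by
  constructor
  · intro e s hs e'
    exact hq' (h.dl_inj v hq (II_mono a y hs) (e.trans e'.symm) ▸ hs)
  · intro hs
    have h1 := Set.ncard_insert_of_notMem hq' (II_fin y)
    have h2 : insert q (II P y) = II P (a ++ y) :=
      Set.eq_of_subset_of_ncard_le (Set.insert_subset hq (II_mono a y))
        ((hd _).trans (by omega)) (II_fin _)
    have h3 : Sur P (a ++ y) v := by
      by_contra h3
      have := h.not_sur h3
      have := hd (a ++ y ++ v)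
      rw [← h2] at *
      omega
    obtain ⟨r, hr, e⟩ := h3 (h.nil_mem _)
    rw [← h2] at hr
    rcases hr with rfl | hr
    · exact e
    · exact absurd e (hs r hr)

theorem Code.index (h : Code P N) {c : α} {d m k : ℕ} (hc : P (List.replicate d c))
    (hm : ∀ r, 1 ≤ r → r ≤ d → r ∣ m) (hk : d ≤ k + 2) (u v : List α) {x : List α} (hx : x ≠ []) :
    dl P [] (u ++ pw x k ++ v) = [] ↔ dl P [] (u ++ pw x (k + m) ++ v) = [] := by
  have h1 : (II P (List.replicate N c)).ncard ≤ d := by
    have : II P (List.replicate N c) ⊆ (fun i => List.replicate i c) '' Set.Iio d := by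
      intro s hs
      have e : s = List.replicate s.length c :=
        List.eq_replicate_of_mem fun b hb => List.eq_of_mem_replicate (hs.1.subset hb)
      refine ⟨s.length, ?_, e.symm⟩
      by_contra h2
      refine hs.2 _ ?_ hc
      rw [e]
      exact List.prefix_replicate_iff.2 ⟨by simpa using h2, by simp⟩
    refine (Set.ncard_le_ncard this ((Set.finite_Iio d).image _)).trans ?_
    exact (Set.ncard_image_le (Set.finite_Iio d)).trans (Set.ncard_Iio_nat d).le
  have h2 : ∀ z, (II P z).ncard ≤ (II P (pw x N)).ncard := fun z => h.card_le z (pw_len hx N)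
  have h3 : (II P (pw x N)).ncard ≤ d := (h.card_le _ (by simp)).trans h1
  have h4 := h.growth hx k
  have hf : ∀ s ∈ II P (pw x k), dl P s (pw x m) = s :=
    fun s hs => h.fix hx (fun r a b => hm r a (b.trans h3)) hs
  have hq : dl P [] (u ++ pw x k) ∈ II P (u ++ pw x k) := by
    simpa using h.dl_mem (u ++ pw x k) (h.nil_mem [])
  rw [pw_add, ← List.append_assoc, dl_append, dl_append _ (u ++ pw x k ++ pw x m),
    dl_append _ (u ++ pw x k)]
  by_cases h5 : dl P [] (u ++ pw x k) ∈ II P (pw x k)
  · rw [hf _ h5]
  · have hq' := h.dl_mem (pw x m) hq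
    rw [List.append_assoc, ← pw_add, Nat.add_comm, pw_add, ← List.append_assoc] at hq'
    rw [h.extra v h2 (by omega) hq h5, h.extra v h2 (by omega) hq' fun h6 =>
      h5 (h.dl_inj (pw x m) hq (II_mono u _ h6) (hf _ h6).symm ▸ h6)]

/-- the kernel word -/
def kx (n : ℕ) : List (Fin 2) := 1 :: (List.replicate n 0 ++ [1])

/-- the code of degree `n + 3` with one kernel word -/
def XP (n : ℕ) (w : List (Fin 2)) : Prop :=
  w = kx n ∨ (w.length = n + 3 ∧ ¬ kx n <+: w ∧ ¬ kx n <:+ w) ∨ ∃ g h, w = g :: (kx n ++ [h])

theorem kx_len (n : ℕ) : (kx n).length = n + 2 := by simp [kx]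

theorem kx_rev (n : ℕ) : (kx n).reverse = kx n := by simp [kx]

theorem XP.rev {n : ℕ} {w : List (Fin 2)} (h : XP n w) : XP n w.reverse := by
  rcases h with rfl | ⟨h1, h2, h3⟩ | ⟨g, h, rfl⟩
  · exact Or.inl (kx_rev n)
  · refine Or.inr (Or.inl ⟨by simpa using h1, fun h => h3 ?_, fun h => h2 ?_⟩)
    · rwa [← kx_rev, List.reverse_prefix] at h
    · rwa [← kx_rev, List.reverse_suffix] at h
  · exact Or.inr (Or.inr ⟨h, g, by simp [kx_rev]⟩)

theorem XP.pre {n : ℕ} (hn : 1 ≤ n) {p q : List (Fin 2)} (hp : XP n p) (hq : XP n q)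
    (h : p <+: q) : p = q := by
  have hl := h.length_le
  have hk := kx_len n
  rcases hp with rfl | ⟨a1, a2, a3⟩ | ⟨g, g', rfl⟩ <;>
    rcases hq with rfl | ⟨b1, b2, b3⟩ | ⟨f, f', rfl⟩
  · rfl
  · exact absurd h b2
  · obtain ⟨n, rfl⟩ := Nat.exists_eq_add_of_le' hn
    simp [kx, List.replicate_succ] at h
  · omega
  · exact h.eq_of_length (by omega)
  · have : p = f :: kx n := (List.prefix_of_prefix_length_le h
      (List.prefix_append (f :: kx n) [f']) (by simp; omega)).eq_of_length (by simp; omega)
    exact absurd (this ▸ List.suffix_cons f _) a3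
  · simp at hl
  · simp at hl; omega
  · exact h.eq_of_length (by simp)

theorem XP.suf {n : ℕ} (hn : 1 ≤ n) {p q : List (Fin 2)} (hp : XP n p) (hq : XP n q)
    (h : p <:+ q) : p = q :=
  List.reverse_injective (hp.rev.pre hn hq.rev (List.reverse_prefix.2 h))

theorem XP_complete (n : ℕ) (w : List (Fin 2)) : ∃ p, XP n p ∧ (w <+: p ∨ p <+: w) := by
  have key : ∀ z : List (Fin 2), n + 4 ≤ z.length → ∃ p, XP n p ∧ p <+: z := by
    intro z hz
    by_cases h1 : kx n <+: z
    · exact ⟨_, Or.inl rfl, h1⟩
    have hl : (z.take (n + 3)).length = n + 3 := by simp; omega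
    by_cases h2 : kx n <:+ z.take (n + 3)
    · obtain ⟨t, ht⟩ := h2
      have h3 := congrArg List.length ht
      rw [List.length_append, hl, kx_len] at h3
      obtain ⟨g, rfl⟩ := List.length_eq_one_iff.1 (show t.length = 1 by omega)
      obtain ⟨h, r, hr⟩ := List.exists_cons_of_ne_nil (show z.drop (n + 3) ≠ [] by simp; omega)
      refine ⟨_, Or.inr (Or.inr ⟨g, h, rfl⟩), r, ?_⟩
      rw [← List.take_append_drop (n + 3) z, ← ht, hr]
      simp
    · exact ⟨_, Or.inr (Or.inl ⟨hl, fun h => h1 (h.trans (List.take_prefix _ _)), h2⟩),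
        List.take_prefix _ _⟩
  obtain ⟨p, h1, h2⟩ := key (w ++ List.replicate (n + 4) 0) (by simp)
  exact ⟨p, h1, List.prefix_or_prefix_of_prefix (List.prefix_append _ _) h2⟩

theorem XP_rep {n : ℕ} (hn : 1 ≤ n) (c : Fin 2) : XP n (List.replicate (n + 3) c) := by
  have h : ¬ kx n ⊆ List.replicate (n + 3) c := fun h => by
    have h0 := List.eq_of_mem_replicate (h (show 0 ∈ kx n by simp [kx]; omega))
    have h1 := List.eq_of_mem_replicate (h (show 1 ∈ kx n by simp [kx]))
    exact absurd (h0.trans h1.symm) (by decide)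
  exact Or.inr (Or.inl ⟨by simp, fun h1 => h h1.subset, fun h1 => h h1.subset⟩)

theorem XP_fin (n : ℕ) : {w | XP n w}.Finite :=
  (List.finite_length_le (Fin 2) (n + 4)).subset (by
    rintro w (rfl | ⟨h, -⟩ | ⟨g, h, rfl⟩)
    · simp [kx_len]
    · exact h.le.trans (Nat.le_succ _)
    · simp [kx_len])

theorem kx_infix {n k : ℕ} (h : kx n <:+: kx k) : k = n := by
  obtain ⟨s, t, e⟩ := h
  have h1 := congrArg (List.count 1) e
  simp only [kx, List.count_append, List.count_cons, List.count_replicate, List.count_nil] at h1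
  norm_num at h1
  have hs : s = [] := by
    cases s with
    | nil => rfl
    | cons a s =>
      simp only [kx, List.cons_append, List.cons.injEq] at e
      rw [e.1] at h1
      simp at h1
      omega
  have ht : t = [] := by
    rcases List.eq_nil_or_concat t with rfl | ⟨t, a, rfl⟩
    · rfl
    · have := congrArg List.getLast? e
      rw [List.concat_eq_append, ← List.append_assoc, List.getLast?_concat, kx,
        ← List.cons_append, List.getLast?_concat, Option.some.injEq] at this
      rw [this] at h1
      simp at h1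
      omega
  have h2 := congrArg List.length e
  simp only [hs, ht, List.nil_append, List.append_nil, kx_len] at h2
  omega

theorem kx_star {n k : ℕ} {l : List (List (Fin 2))} (hl : ∀ p ∈ l, XP n p) (e : kx k = l.flatten)
    (hk : n + 3 ∣ k + 3) : k = n := by
  by_contra hne
  have h1 : ∀ p ∈ l, p.length = n + 3 := by
    intro p hp
    have h2 : p <:+: kx k := e ▸ List.infix_of_mem_flatten hp
    rcases hl p hp with rfl | h | ⟨g, h, rfl⟩
    · exact absurd (kx_infix h2) hne
    · exact h.1
    · exact absurd (kx_infix (List.IsInfix.trans ⟨[g], [h], by simp⟩ h2)) hne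
  have h2 : n + 3 ∣ k + 2 := by
    rw [← kx_len k, e, List.length_flatten]
    refine List.dvd_sum fun i hi => ?_
    obtain ⟨p, hp, rfl⟩ := List.mem_map.1 hi
    rw [h1 p hp]
  have := Nat.le_of_dvd Nat.one_pos ((Nat.dvd_add_right h2).1 hk)
  omega

end Pool.Agent.MP_df6b17_lc.Deg
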