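import Pool.Agent.MP_df6b17_lc.Degree

/-!
The unary trace of the variety generated by the finite maximal bifix codes of degree at most `D`.
-/

set_option autoImplicit false

namespace Pool.Agent.MP_df6b17_lc.Deg

theorem pw_single {α : Type} (c : α) (n : ℕ) : pw [c] n = List.replicate n c := by
  induction n with
  | zero => rfl
  | succ n ih => rw [pw_add, pw_one, ih, List.replicate_succ']

theorem pw_ne {α : Type} {x : List α} (hx : x ≠ []) (u v : List α) {j : ℕ} (hj : 1 ≤ j) :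
    u ++ pw x j ++ v ≠ [] := by
  intro e
  have h1 := congrArg List.length e
  have h2 := pw_len hx j
  simp only [List.length_append, List.length_nil] at h1
  omega

/-- the languages with index and period bounded as stated -/
def Per (D m : ℕ) (k : ℕ) : Set (Set (List (Fin k))) :=
  {L | ∀ u v x : List (Fin k), x ≠ [] → ∀ j, 1 ≤ j → D ≤ j + 2 →
    (u ++ pw x j ++ v ∈ L ↔ u ++ pw x (j + m) ++ v ∈ L)}

theorem Per.code {D m k : ℕ} (hm : ∀ r, 1 ≤ r → r ≤ D → r ∣ m) (P : Finset (List (Fin k)))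
    (h0 : [] ∉ P) (h1 : ∀ p ∈ P, ∀ q ∈ P, p <+: q → p = q)
    (h2 : ∀ p ∈ P, ∀ q ∈ P, p <:+ q → p = q) (h3 : ∀ w, ∃ p ∈ P, w <+: p ∨ p <+: w)
    (h4 : ∀ c : Fin k, ∃ d, d ≤ D ∧ List.replicate d c ∈ P) :
    {w : List (Fin k) | ∃ l : List (List (Fin k)), l ≠ [] ∧ (∀ p ∈ l, p ∈ P) ∧ w = l.flatten}
      ∈ Per D m k := by
  have h : Code (· ∈ P) (P.sup List.length) :=
    ⟨h0, fun p q a b => h1 p a q b, fun p q a b => h2 p a q b, fun s hs => by
      obtain ⟨p, hp, h5 | h5⟩ := h3 s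
      · exact h5.length_le.trans (Finset.le_sup (f := List.length) hp)
      · exact absurd hp (hs p h5)⟩
  have key : ∀ w : List (Fin k), w ≠ [] → ((∃ l : List (List (Fin k)), l ≠ [] ∧
      (∀ p ∈ l, p ∈ P) ∧ w = l.flatten) ↔ dl (· ∈ P) [] w = []) := by
    intro w hw
    rw [← h.star]
    exact ⟨fun ⟨l, _, a⟩ => ⟨l, a⟩, fun ⟨l, a, b⟩ => ⟨l, fun e => hw (by rw [b, e]; rfl), a, b⟩⟩
  intro u v x hx j hj hD
  obtain ⟨d, hd, hc⟩ := h4 (x.head hx)
  exact (key _ (pw_ne hx u v hj)).trans ((h.index hc (fun r a b => hm r a (b.trans hd))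
    (hd.trans hD) u v hx).trans (key _ (pw_ne hx u v (hj.trans (Nat.le_add_right j m)))).symm)

/-- the closure conditions -/
structure Var (D : ℕ) (W : (k : ℕ) → Set (Set (List (Fin k)))) : Prop where
  emp : ∀ k, (∅ : Set (List (Fin k))) ∈ W k
  cpl : ∀ k, ∀ L ∈ W k, {w : List (Fin k) | w ≠ [] ∧ w ∉ L} ∈ W k
  uni : ∀ k, ∀ L ∈ W k, ∀ K ∈ W k, L ∪ K ∈ W k
  quo : ∀ k, ∀ L ∈ W k, ∀ u : List (Fin k),
    {w : List (Fin k) | w ≠ [] ∧ u ++ w ∈ L} ∈ W k ∧ {w : List (Fin k) | w ≠ [] ∧ w ++ u ∈ L} ∈ W k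
  inv : ∀ (k m : ℕ) (φ : Fin m → List (Fin k)), (∀ a, φ a ≠ []) →
    ∀ L ∈ W k, {w : List (Fin m) | w ≠ [] ∧ w.flatMap φ ∈ L} ∈ W m
  cod : ∀ (k : ℕ) (P : Finset (List (Fin k))), ([] : List (Fin k)) ∉ P →
    (∀ p ∈ P, ∀ q ∈ P, p <+: q → p = q) → (∀ p ∈ P, ∀ q ∈ P, p <:+ q → p = q) →
    (∀ w : List (Fin k), ∃ p ∈ P, w <+: p ∨ p <+: w) →
    (∀ c : Fin k, ∃ d, d ≤ D ∧ List.replicate d c ∈ P) →
    {w : List (Fin k) | ∃ l : List (List (Fin k)), l ≠ [] ∧ (∀ p ∈ l, p ∈ P) ∧ w = l.flatten} ∈ W k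

theorem Per.var {D m : ℕ} (hm : ∀ r, 1 ≤ r → r ≤ D → r ∣ m) : Var D (Per D m) where
  emp := fun _ _ _ _ _ _ _ _ => Iff.rfl
  cpl := fun _ L hL u v x hx j hj hD => by
    have := hL u v x hx j hj hD
    simp only [Set.mem_ofPred_eq, this, pw_ne hx u v hj,
      pw_ne hx u v (hj.trans (Nat.le_add_right j m)), ne_eq]
  uni := fun _ L hL K hK u v x hx j hj hD =>
    or_congr (hL u v x hx j hj hD) (hK u v x hx j hj hD)
  quo := fun _ L hL t => by
    constructor <;> intro u v x hx j hj hD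
    · have := hL (t ++ u) v x hx j hj hD
      simp only [List.append_assoc] at this
      have a := pw_ne hx u v hj
      have b := pw_ne hx u v (hj.trans (Nat.le_add_right j m))
      simp only [List.append_assoc] at a b
      simp only [Set.mem_ofPred_eq, List.append_assoc, this, a, b, ne_eq]
    · have := hL u (v ++ t) x hx j hj hD
      simp only [List.append_assoc] at this
      have a := pw_ne hx u v hj
      have b := pw_ne hx u v (hj.trans (Nat.le_add_right j m))
      simp only [List.append_assoc] at a b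
      simp only [Set.mem_ofPred_eq, List.append_assoc, this, a, b, ne_eq]
  inv := fun _ _ φ hφ L hL u v x hx j hj hD => by
    have := hL (u.flatMap φ) (v.flatMap φ) (x.flatMap φ) (fun e =>
      hφ _ (List.flatMap_eq_nil_iff.1 e _ (List.head_mem hx))) j hj hD
    simp only [Set.mem_ofPred_eq, List.flatMap_append, pw_flatMap, this, pw_ne hx u v hj,
      pw_ne hx u v (hj.trans (Nat.le_add_right j m)), ne_eq]
  cod := fun _ P => Per.code hm P

/-- unary languages given by their sets of lengths -/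
def In (W : (k : ℕ) → Set (Set (List (Fin k)))) (S : ℕ → Prop) : Prop :=
  {w : List (Fin 1) | w ≠ [] ∧ S w.length} ∈ W 1

variable {D : ℕ} {W : (k : ℕ) → Set (Set (List (Fin k)))}

theorem In.of {S : ℕ → Prop} {L : Set (List (Fin 1))} (h : L ∈ W 1)
    (e : ∀ w, w ∈ L ↔ w ≠ [] ∧ S w.length) : In W S := by
  rwa [show L = {w : List (Fin 1) | w ≠ [] ∧ S w.length} from Set.ext e] at h

theorem In.congr {S T : ℕ → Prop} (h : In W S) (e : ∀ k, 1 ≤ k → (S k ↔ T k)) : In W T :=
  In.of h fun _ => and_congr_right fun hw => e _ (List.length_pos_iff.2 hw)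

theorem Var.not (V : Var D W) {S : ℕ → Prop} (h : In W S) : In W fun k => ¬ S k :=
  In.of (V.cpl 1 _ h) fun _ => and_congr_right fun hw => not_congr (and_iff_right hw)

theorem Var.or (V : Var D W) {S T : ℕ → Prop} (h : In W S) (h' : In W T) :
    In W fun k => S k ∨ T k :=
  In.of (V.uni 1 _ h _ h') fun _ => and_or_left.symm

theorem Var.and (V : Var D W) {S T : ℕ → Prop} (h : In W S) (h' : In W T) :
    In W fun k => S k ∧ T k :=
  (V.not (V.or (V.not h) (V.not h'))).congr fun k _ => by tauto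

theorem Var.ex (V : Var D W) (s : Finset ℕ) {T : ℕ → ℕ → Prop} (h : ∀ i ∈ s, In W (T i)) :
    In W fun k => ∃ i ∈ s, T i k := by
  induction s using Finset.induction_on with
  | empty => exact In.of (V.emp 1) (by simp)
  | insert a s _ ih =>
    exact (V.or (h a (Finset.mem_insert_self a s))
      (ih fun i hi => h i (Finset.mem_insert_of_mem hi))).congr fun k _ => by simp

theorem Var.shift (V : Var D W) {S : ℕ → Prop} (h : In W S) (j : ℕ) : In W fun k => S (j + k) :=
  In.of (V.quo 1 _ h (List.replicate j 0)).1 fun w => and_congr_right fun hw => by simp [hw]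

theorem uno (w : List (Fin 1)) : w = List.replicate w.length 0 :=
  List.eq_replicate_of_mem fun _ _ => Subsingleton.elim _ _

theorem Var.dvd (V : Var D W) {d : ℕ} (h1 : 1 ≤ d) (h2 : d ≤ D) : In W fun k => d ∣ k := by
  have hne : List.replicate d (0 : Fin 1) ≠ [] := by simp; omega
  refine In.of (V.cod 1 {List.replicate d 0} (by simpa using hne.symm) (by simp) (by simp)
    (fun w => ⟨_, Finset.mem_singleton_self _, ?_⟩)
    fun c => ⟨d, h2, by rw [Subsingleton.elim c 0]; simp⟩) fun w => ⟨?_, ?_⟩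
  · refine List.prefix_or_prefix_of_prefix (List.prefix_append w (List.replicate d 0)) ?_
    rw [uno w, ← List.replicate_add, Nat.add_comm, List.replicate_add]
    exact List.prefix_append _ _
  · rintro ⟨l, a, b, rfl⟩
    simp only [Finset.mem_singleton] at b
    refine ⟨fun e => hne (b _ (List.head_mem a) ▸ List.flatten_eq_nil_iff.1 e _
      (List.head_mem a)), ?_⟩
    rw [List.length_flatten]
    refine List.dvd_sum fun i hi => ?_
    obtain ⟨p, hp, rfl⟩ := List.mem_map.1 hi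
    rw [b p hp, List.length_replicate]
  · rintro ⟨a, t, ht⟩
    refine ⟨List.replicate t (List.replicate d 0), fun e => a ?_, fun p hp =>
      Finset.mem_singleton.2 (List.eq_of_mem_replicate hp), ?_⟩
    · rw [List.replicate_eq_nil_iff] at e
      exact List.length_eq_zero_iff.1 (by rw [ht, e]; rfl)
    · rw [uno w, ht, List.flatten_replicate_replicate, Nat.mul_comm]

theorem Var.single (V : Var D W) {n : ℕ} (h1 : 1 ≤ n) (h2 : n + 3 ≤ D) : In W fun k => k = n := by
  have hP : ∀ p, p ∈ (XP_fin n).toFinset ↔ XP n p := fun p => Set.Finite.mem_toFinset _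
  have h3 := V.cod 2 (XP_fin n).toFinset
    (by rw [hP]; rintro (e | ⟨e, -⟩ | ⟨g, h, e⟩) <;> simp [kx] at e)
    (fun p a q b => ((hP p).1 a).pre h1 ((hP q).1 b))
    (fun p a q b => ((hP p).1 a).suf h1 ((hP q).1 b))
    (fun w => by simpa only [hP] using XP_complete n w)
    fun c => ⟨n + 3, h2, (hP _).2 (XP_rep h1 c)⟩
  have h4 := V.inv 2 1 (fun _ => [0]) (by simp) _ (V.quo 2 _ (V.quo 2 _ h3 [1]).1 [1]).2
  have h5 : In W fun k => ∃ l : List (List (Fin 2)), l ≠ [] ∧ (∀ p ∈ l, XP n p) ∧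
      kx k = l.flatten := In.of h4 fun w => and_congr_right fun hw => by
    have e : w.flatMap (fun _ => [(0 : Fin 2)]) = List.replicate w.length 0 := by
      rw [← List.map_eq_flatMap, List.map_const']
    simp [e, hP, hw, kx]
  refine (V.and h5 (V.shift (V.dvd (by omega) h2) 3)).congr fun k _ => ⟨?_, ?_⟩
  · rintro ⟨⟨l, -, a, b⟩, c⟩
    exact kx_star a b (by rwa [Nat.add_comm k])
  · rintro rfl
    exact ⟨⟨[kx k], by simp, by simp [XP], by simp⟩, by rw [Nat.add_comm]⟩

theorem Var.trace (V : Var D W) {m : ℕ} (hm : 1 ≤ m)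
    (hl : ∀ k, (∀ d, 1 ≤ d → d ≤ D → d ∣ k) ↔ m ∣ k) {S : ℕ → Prop}
    (hS : ∀ k, 1 ≤ k → D ≤ k + 2 → (S k ↔ S (k + m))) : In W S := by
  classical
  have h1 : In W fun k => m ∣ k :=
    (V.not (V.ex (Finset.Icc 1 D) fun d hd => V.not (V.dvd (Finset.mem_Icc.1 hd).1
      (Finset.mem_Icc.1 hd).2))).congr fun k _ => by rw [← hl]; simp
  have h2 : ∀ r, r < m → In W fun k => k % m = r := fun r hr =>
    (V.shift h1 (m - r)).congr fun k _ => by
      constructor
      · rintro ⟨t, ht⟩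
        obtain ⟨t, rfl⟩ : ∃ s, t = s + 1 := Nat.exists_eq_add_one.2 (Nat.pos_of_ne_zero (by
          rintro rfl
          omega))
        rw [show k = m * t + r by rw [Nat.mul_succ] at ht; omega, Nat.mul_add_mod,
          Nat.mod_eq_of_lt hr]
      · intro e
        have := Nat.div_add_mod k m
        exact ⟨k / m + 1, by rw [Nat.mul_succ]; omega⟩
  have h3 : In W fun k => D ≤ k + 2 :=
    (V.not (V.ex (Finset.Icc 1 (D - 3)) fun n hn => V.single (Finset.mem_Icc.1 hn).1
      (by have := Finset.mem_Icc.1 hn; omega))).congr fun k hk => by simp; omega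
  have h4 : ∀ k, 1 ≤ k → D ≤ k + 2 → ∀ t, S k ↔ S (k + m * t) := by
    intro k a b t
    induction t with
    | zero => rfl
    | succ t ih => rw [ih, Nat.mul_succ, ← Nat.add_assoc]; exact hS _ (by omega) (by omega)
  have h5 : ∀ k, 1 ≤ k → D ≤ k + 2 → (S k ↔ S (k % m + m * (D + 1))) := by
    intro k a b
    have := Nat.le_mul_of_pos_left (D + 1) hm
    rw [h4 k a b (D + 1), h4 (k % m + m * (D + 1)) (by omega) (by omega) (k / m),
      Nat.add_right_comm, Nat.mod_add_div]
  refine (V.or (V.ex ((Finset.Icc 1 (D - 3)).filter S) fun n hn => V.single (n := n) ?_ ?_)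
    (V.and h3 (V.ex ((Finset.range m).filter fun r => S (r + m * (D + 1))) fun r hr =>
      h2 r (Finset.mem_range.1 (Finset.mem_filter.1 hr).1)))).congr fun k hk => ?_
  · exact (Finset.mem_Icc.1 (Finset.mem_filter.1 hn).1).1
  · have := Finset.mem_Icc.1 (Finset.mem_filter.1 hn).1
    omega
  · have := Nat.mod_lt k hm
    by_cases hD : D ≤ k + 2
    · rw [h5 k hk hD]
      simp [hD, this]
      omega
    · simp [hD, hk]
      omega

end Pool.Agent.MP_df6b17_lc.Deg
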