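import Pool.Agent.MP_df6b17_lc.Cocycle

/-!
A morphism into a finite local group is determined by a bounded initial part, a bounded final part
and a group valued function with finite memory increments.
-/

set_option autoImplicit false

namespace Pool.Agent.MP_df6b17_lc

section
variable {α : Type} {W : (k : ℕ) → Set (Set (List (Fin k)))}

def acc {G : Type} [Group G] (c : List α → G) (w : List α) : G :=
  ((List.range w.length).map (fun i => c (w.take i))).prod

theorem acc_concat {G : Type} [Group G] (c : List α → G) (w : List α) (a : α) :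
    acc c (w ++ [a]) = acc c w * c w := by
  simp only [acc, List.length_append, List.length_singleton, List.range_succ, List.map_append,
    List.prod_append, List.map_cons, List.map_nil, List.prod_cons, List.prod_nil, mul_one,
    List.take_left']
  congr 2
  apply List.map_congr_left
  intro i hi
  rw [List.take_append_of_le_length (List.mem_range.1 hi).le]

theorem rec_of_mem_group (hW : Closed W) [Finite α] [Nonempty α] {G : Type} [Group G] [Finite G]
    {n : ℕ} {c : List α → G} (hc : Mem n c) : Rec W c := by
  obtain ⟨a⟩ := ‹Nonempty α›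
  have h1 : DMem n (acc c) := by
    intro v z z' y hy
    induction v using List.reverseRecOn with
    | nil => simp [DD_nil]
    | append_singleton v b ih =>
      simp only [DD_append] at ih ⊢
      rw [ih]
      congr 1
      simp only [DD, acc_concat, inv_mul_cancel_left]
      rw [List.append_assoc, List.append_assoc]
      exact hc _ _ _ (by simp; omega)
  have h2 := rec_cocycle hW h1
  refine (h2.pair hW (h2.right hW [a])).determined (fun w w' _ _ e => ?_)
  simp only [Prod.mk.injEq, acc_concat] at e
  have := e.2
  rw [e.1] at this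
  exact mul_left_cancel this

theorem swap_none_inj {T : Type} [DecidableEq T] {t t' : T}
    (h : Equiv.swap none (some t) = Equiv.swap none (some t')) : t = t' := by
  have := congrArg (fun σ : Equiv.Perm (Option T) => σ none) h
  simpa using this

theorem rec_suf (hW : Closed W) [Finite α] [Nonempty α] (n : ℕ) : Rec W (blk (α := α) n) := by
  classical
  have : Finite {l : List α // l.length ≤ n} := (List.finite_length_le α _).to_subtype
  have h : Mem n (fun z : List α => Equiv.swap none (some (blk n z))) := by
    intro z z' y hy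
    have : blk n (z ++ y) = blk n (z' ++ y) := Subtype.ext (Mem_suf n z z' _ hy)
    simp only [this]
  exact (rec_of_mem_group hW h).determined (fun w w' _ _ e => swap_none_inj e)

def ini (n : ℕ) (z : List α) : {l : List α // l.length ≤ n} := ⟨z.take n, by simp⟩

theorem rec_ini (hW : Closed W) [Finite α] (n : ℕ) : Rec W (ini (α := α) n) := by
  classical
  have : Finite {l : List α // l.length ≤ n} := (List.finite_length_le α _).to_subtype
  have h : DMem n (fun z : List α => Equiv.swap none (some (ini n z))) := by
    have key : ∀ z v : List α, n ≤ z.length →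
        DD (fun z : List α => Equiv.swap none (some (ini n z))) z v = 1 := by
      intro z v hz
      have : ini n (z ++ v) = ini n z := Subtype.ext (List.take_append_of_le_length hz)
      simp only [DD, this, inv_mul_cancel]
    intro v z z' y hy
    simp only
    rw [key _ _ (by simp; omega), key _ _ (by simp; omega)]
  exact (rec_cocycle hW h).determined (fun w w' _ _ e => swap_none_inj e)

variable {S : Type} [Semigroup S]

/-- the local group at an idempotent -/
@[reducible] noncomputable def locGroup (e : S) (he : e * e = e)
    (h : ∀ x : S, ∃ y : S, (e * x * e) * (e * y * e) = e ∧ (e * y * e) * (e * x * e) = e) :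
    Group {x : S // e * x * e = x} :=
  letI : Mul {x : S // e * x * e = x} := ⟨fun x y => ⟨x.1 * y.1, by
    have h1 : e * x.1 = x.1 := by rw [← x.2, ← mul_assoc, ← mul_assoc, he]
    have h2 : y.1 * e = y.1 := by rw [← y.2, mul_assoc, he]
    rw [← mul_assoc, h1, mul_assoc, h2]⟩⟩
  letI : One {x : S // e * x * e = x} := ⟨⟨e, by rw [he, he]⟩⟩
  letI : Inv {x : S // e * x * e = x} := ⟨fun x => ⟨e * Classical.choose (h x.1) * e, by
    rw [← mul_assoc, ← mul_assoc, he, mul_assoc, he]⟩⟩
  Group.ofLeftAxioms
    (fun a b c => Subtype.ext (mul_assoc a.1 b.1 c.1))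
    (fun a => Subtype.ext (by
      change e * a.1 = a.1
      rw [← a.2, ← mul_assoc, ← mul_assoc, he]))
    (fun a => Subtype.ext (by
      change e * Classical.choose (h a.1) * e * a.1 = e
      exact (congrArg (fun t => e * Classical.choose (h a.1) * e * t) a.2).symm.trans
        (Classical.choose_spec (h a.1)).2))

theorem exists_factor [Finite S] {φ : List α → S}
    (hφ : ∀ u v : List α, u ≠ [] → v ≠ [] → φ (u ++ v) = φ u * φ v) (y : List α)
    (hy : Nat.card S + 1 ≤ y.length) : ∃ s₁ f s₂ : S, f * f = f ∧ φ y = s₁ * f * s₂ := by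
  have := Fintype.ofFinite S
  have key : ∀ i j : Fin (Nat.card S + 1), i < j → φ (y.take (i + 1)) = φ (y.take (j + 1)) →
      ∃ s₁ f s₂ : S, f * f = f ∧ φ y = s₁ * f * s₂ := by
    intro i j hij e
    have hj := j.isLt
    have hij' : i.val < j.val := hij
    have ne1 : y.take (i + 1) ≠ [] := by
      intro h; have := congrArg List.length h
      simp only [List.length_take, List.length_nil] at this; omega
    have ne2 : (y.drop (i + 1)).take (j - i) ≠ [] := by
      intro h; have := congrArg List.length h
      simp only [List.length_take, List.length_drop, List.length_nil] at this; omega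
    have ne3 : y.drop (i + 1) ≠ [] := by
      intro h; have := congrArg List.length h
      simp only [List.length_drop, List.length_nil] at this; omega
    rw [show j.val + 1 = (i + 1) + (j - i) by omega, List.take_add (i := i + 1),
      hφ _ _ ne1 ne2] at e
    obtain ⟨f, hf1, hf2⟩ := exists_idem {t | φ (y.take (i + 1)) * t = φ (y.take (i + 1))}
      ⟨_, e.symm⟩ (by
        intro a ha b hb
        simp only [Set.mem_ofPred_eq] at ha hb ⊢
        rw [← mul_assoc, ha, hb])
    refine ⟨φ (y.take (i + 1)), f, φ (y.drop (i + 1)), hf2, ?_⟩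
    rw [hf1, ← hφ _ _ ne1 ne3, List.take_append_drop]
  obtain ⟨i, j, hne, e⟩ := Fintype.exists_ne_map_eq_of_card_lt
    (fun i : Fin (Nat.card S + 1) => φ (y.take (i + 1))) (by simp)
  rcases lt_or_gt_of_ne hne with h | h
  · exact key i j h e
  · exact key j i h e.symm

theorem rec_hom (hW : Closed W) [Finite α] [Finite S]
    (hS : ∀ e : S, e * e = e → ∀ x : S, ∃ y : S,
      (e * x * e) * (e * y * e) = e ∧ (e * y * e) * (e * x * e) = e)
    {φ : List α → S} (hφ : ∀ u v : List α, u ≠ [] → v ≠ [] → φ (u ++ v) = φ u * φ v) :
    Rec W φ := by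
  classical
  rcases isEmpty_or_nonempty α with hα | hα
  · have : Rec W (fun _ : List α => ()) := fun X => WW_const hW _
    refine this.determined (fun w w' hw _ _ => ?_)
    obtain ⟨a, _, _⟩ := List.exists_cons_of_ne_nil hw
    exact isEmptyElim a
  obtain ⟨e, _, he⟩ := exists_idem (Set.univ : Set S) ⟨φ [], trivial⟩ (fun _ _ _ _ => trivial)
  have ne : ∀ y : List α, Nat.card S + 1 ≤ y.length → y ≠ [] := by
    rintro y hy rfl; simp at hy
  have longL : ∀ p : List α, Nat.card S + 1 ≤ p.length →
      ∃ a : S, ∀ v, φ (p ++ v) = a * e * φ (p ++ v) := by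
    intro p hp
    obtain ⟨s₁, f, s₂, hf, hp'⟩ := exists_factor hφ p hp
    obtain ⟨c, _, hc⟩ := hS f hf (e * s₁)
    have h1 : φ p = s₁ * f * c * f * e * φ p := by
      rw [hp']
      conv_lhs => rw [← hc]
      have ff : ∀ z, f * (f * z) = f * z := fun z => by rw [← mul_assoc, hf]
      simp only [mul_assoc, ff]
    refine ⟨s₁ * f * c * f, fun v => ?_⟩
    by_cases hv : v = []
    · rw [hv, List.append_nil]; exact h1
    · rw [hφ _ _ (ne p hp) hv, ← mul_assoc, ← h1]
  have longR : ∀ p : List α, Nat.card S + 1 ≤ p.length →
      ∃ a : S, ∀ v, φ (v ++ p) = φ (v ++ p) * e * a := by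
    intro p hp
    obtain ⟨s₁, f, s₂, hf, hp'⟩ := exists_factor hφ p hp
    obtain ⟨c, hc, _⟩ := hS f hf (s₂ * e)
    have h1 : φ p = φ p * e * (f * c * f * s₂) := by
      rw [hp']
      conv_lhs => rw [← hc]
      have ff : ∀ z, f * (f * z) = f * z := fun z => by rw [← mul_assoc, hf]
      simp only [mul_assoc, ff]
    refine ⟨f * c * f * s₂, fun v => ?_⟩
    by_cases hv : v = []
    · rw [hv, List.nil_append]; exact h1
    · rw [hφ _ _ hv (ne p hp), mul_assoc, mul_assoc, ← mul_assoc (φ p), ← h1]
  have ee : ∀ z, e * (e * z) = e * z := fun z => by rw [← mul_assoc, he]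
  have hloc : ∀ x : S, e * (e * x * e) * e = e * x * e := fun x => by
    simp only [mul_assoc, ee, he]
  let : Group {x : S // e * x * e = x} := locGroup e he (hS e he)
  let F : List α → {x : S // e * x * e = x} :=
    fun w => if w = [] then 1 else ⟨e * φ w * e, hloc _⟩
  have hmul : ∀ x y : {x : S // e * x * e = x}, (x * y).1 = x.1 * y.1 := fun _ _ => rfl
  have hF : DMem (Nat.card S + 1) F := by
    have key : ∀ z y v : List α, Nat.card S + 1 ≤ y.length → DD F (z ++ y) v = DD F y v := by
      intro z y v hy
      by_cases hz : z = []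
      · simp [hz]
      obtain ⟨a, ha⟩ := longL y hy
      have h1 : ∀ v, F (z ++ y ++ v) = ⟨e * (φ z * a) * e, hloc _⟩ * F (y ++ v) := by
        intro v
        have n1 : y ++ v ≠ [] := by simp [ne y hy]
        apply Subtype.ext
        rw [hmul]
        simp only [F, if_neg n1, if_neg (show z ++ y ++ v ≠ [] by simp [hz])]
        rw [List.append_assoc, hφ _ _ hz n1]
        conv_lhs => rw [ha v]
        simp only [mul_assoc, ee]
      have h2 := h1 []
      simp only [List.append_nil] at h2
      simp only [DD]
      rw [h1 v, h2]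
      group
    intro v z z' y hy
    simp only
    rw [key _ _ _ hy, key _ _ _ hy]
  have : Finite {l : List α // l.length ≤ Nat.card S + 1} :=
    (List.finite_length_le α _).to_subtype
  refine (((rec_ini hW (Nat.card S + 1)).pair hW (rec_suf hW (Nat.card S + 1))).pair hW
    (rec_cocycle hW hF)).determined (fun w w' hw hw' h => ?_)
  simp only [Prod.mk.injEq, ini, blk, Subtype.mk.injEq] at h
  obtain ⟨⟨h1, h2⟩, h3⟩ := h
  have h4 : e * φ w * e = e * φ w' * e := by
    have := congrArg Subtype.val h3
    simpa only [F, if_neg hw, if_neg hw'] using this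
  have hl := congrArg List.length h1
  simp only [List.length_take] at hl
  rcases lt_or_ge w.length (Nat.card S + 1) with l | l
  · rw [List.take_of_length_le (by omega), List.take_of_length_le (by omega)] at h1
    rw [h1]
  · have l' : Nat.card S + 1 ≤ w'.length := by omega
    obtain ⟨a, ha⟩ := longL (w.take (Nat.card S + 1)) (by simp [l])
    obtain ⟨b, hb⟩ := longR (suf (Nat.card S + 1) w) (suf_length_of_le l).ge
    have g1 := ha (w.drop (Nat.card S + 1))
    have g2 := ha (w'.drop (Nat.card S + 1))
    rw [List.take_append_drop] at g1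
    rw [h1, List.take_append_drop] at g2
    obtain ⟨t, ht⟩ := suf_suffix (Nat.card S + 1) w
    obtain ⟨t', ht'⟩ := suf_suffix (Nat.card S + 1) w'
    have g3 := hb t
    have g4 := hb t'
    rw [ht] at g3
    rw [h2, ht'] at g4
    calc φ w = a * e * φ w := g1
      _ = a * e * (φ w * e * b) := by rw [← g3]
      _ = a * (e * φ w * e) * b := by simp only [mul_assoc]
      _ = a * (e * φ w' * e) * b := by rw [h4]
      _ = a * e * (φ w' * e * b) := by simp only [mul_assoc]
      _ = a * e * φ w' := by rw [← g4]
      _ = φ w' := g2.symm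

theorem main (hW : Closed W) (n : ℕ) (L : Set (List (Fin n))) (hL : LGRec L) : L ∈ W n := by
  obtain ⟨S, _, _, hS, φ, hφ, X, rfl⟩ := hL
  exact (rec_hom hW hS hφ (fun s => s ∈ X)).toFin hW

end

end Pool.Agent.MP_df6b17_lc
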