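import Pool.Agent.MP_df6b17_lc.Basic

/-!
Eventually injective automata recognise their languages through a finite local group, and
right-unitary sets with bounded return are of the form `P⁺` for a finite code `P`.
-/

set_option autoImplicit false

namespace Pool.Agent.MP_df6b17_lc

theorem exists_idem {S : Type} [Semigroup S] [Finite S] (T : Set S) (hne : T.Nonempty)
    (hT : ∀ x ∈ T, ∀ y ∈ T, x * y ∈ T) : ∃ e ∈ T, e * e = e := by
  let : TopologicalSpace S := ⊥
  have : DiscreteTopology S := ⟨rfl⟩
  exact exists_idempotent_in_compact_subsemigroup (fun _ => continuous_of_discreteTopology) T hne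
    (Set.toFinite T).isCompact hT

/-- eventual injectivity of an automaton -/
def EvInj {α St : Type} (step : St → α → St) : Prop :=
  ∃ μ : ℕ, ∀ u v : List α, μ ≤ u.length → ∀ p q : St,
    (u ++ v).foldl step p = (u ++ v).foldl step q → u.foldl step p = u.foldl step q

/-- the transition semigroup -/
def Trans {α St : Type} (step : St → α → St) : Type :=
  {f : St → St // ∃ w : List α, w ≠ [] ∧ f = fun s => w.foldl step s}

instance {α St : Type} (step : St → α → St) : Semigroup (Trans step) where
  mul f g := ⟨fun s => g.1 (f.1 s), by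
    obtain ⟨u, hu, hf⟩ := f.2
    obtain ⟨v, _, hg⟩ := g.2
    exact ⟨u ++ v, by simp [hu], by rw [hf, hg]; funext s; simp⟩⟩
  mul_assoc _ _ _ := rfl

instance {α St : Type} [Finite St] (step : St → α → St) : Finite (Trans step) := by
  unfold Trans; infer_instance

theorem Trans.mul_val {α St : Type} {step : St → α → St} (f g : Trans step) (s : St) :
    (f * g).1 s = g.1 (f.1 s) := rfl

theorem Trans.long {α St : Type} {step : St → α → St} (e : Trans step) (he : e * e = e) (m : ℕ) :
    ∃ u : List α, m ≤ u.length ∧ e.1 = fun s => u.foldl step s := by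
  obtain ⟨w, hw, hf⟩ := e.2
  induction m with
  | zero => exact ⟨w, by simp, hf⟩
  | succ m ih =>
    obtain ⟨u, hu, hu'⟩ := ih
    refine ⟨u ++ w, ?_, ?_⟩
    · have := List.length_pos_iff.2 hw
      simp only [List.length_append]; omega
    · funext s
      have h1 := congrFun (congrArg Subtype.val he) s
      rw [Trans.mul_val] at h1
      rw [← h1, List.foldl_append]
      have h2 : e.1 s = u.foldl step s := congrFun hu' s
      rw [← h2]
      exact congrFun hf _

theorem Trans.local {α St : Type} [Finite St] {step : St → α → St} (h : EvInj step)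
    (e : Trans step) (he : e * e = e) (x : Trans step) :
    ∃ y : Trans step, (e * x * e) * (e * y * e) = e ∧ (e * y * e) * (e * x * e) = e := by
  obtain ⟨μ, hμ⟩ := h
  obtain ⟨u, hu, hu'⟩ := Trans.long e he μ
  have inj : ∀ s : Trans step, ∀ p q, (e * s).1 p = (e * s).1 q → e.1 p = e.1 q := by
    intro s p q hpq
    obtain ⟨v, _, hv⟩ := s.2
    rw [Trans.mul_val, Trans.mul_val, hv, hu'] at hpq
    rw [hu']
    apply hμ u v hu
    simpa using hpq
  have ee : ∀ z : Trans step, e * (e * z) = e * z := fun z => by rw [← mul_assoc, he]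
  obtain ⟨f, ⟨y, hy1, hy2⟩, hf⟩ := exists_idem
    {s : Trans step | ∃ y, s = (e * x * e) * (e * y * e) ∧ s = (e * y * e) * (e * x * e)}
    ⟨(e * x * e) * (e * x * e), x, rfl, rfl⟩ (by
      rintro s ⟨y, h1, h2⟩ s' ⟨y', h1', h2'⟩
      refine ⟨y * e * x * e * y', ?_, ?_⟩
      · rw [h1, h1']; simp only [mul_assoc, ee]
      · rw [h2, h2']; simp only [mul_assoc, ee])
  have hfe : f = e := by
    apply Subtype.ext
    funext p
    have h1 : f = e * (x * e * (e * y * e)) := by rw [hy1]; simp only [mul_assoc]
    have h2 : f * e = f := by rw [hy1]; simp only [mul_assoc, he]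
    have h3 := congrFun (congrArg Subtype.val hf) p
    rw [Trans.mul_val] at h3
    have h4 := inj (x * e * (e * y * e)) (f.1 p) p (by rw [← h1]; exact h3)
    have h5 := congrFun (congrArg Subtype.val h2) p
    rw [Trans.mul_val] at h5
    rw [← h5, h4]
  exact ⟨y, by rw [← hy1, hfe], by rw [← hy2, hfe]⟩

theorem LGRec_of_evInj {α St : Type} [Nonempty α] [Finite St] {step : St → α → St}
    (h : EvInj step) (s₀ : St) (T : Set St) :
    LGRec {w : List α | w ≠ [] ∧ w.foldl step s₀ ∈ T} := by
  classical
  obtain ⟨a⟩ := ‹Nonempty α›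
  refine ⟨Trans step, inferInstance, inferInstance, Trans.local h,
    fun w => if hw : w = [] then ⟨fun s => [a].foldl step s, [a], by simp, rfl⟩
      else ⟨fun s => w.foldl step s, w, hw, rfl⟩, ?_, {f | f.1 s₀ ∈ T}, ?_⟩
  · intro u v hu hv
    apply Subtype.ext
    funext s
    simp [Trans.mul_val, hu, hv]
  · ext w
    simp only [Set.mem_ofPred_eq]
    constructor
    · rintro ⟨h1, h2⟩
      exact ⟨h1, by simpa [h1] using h2⟩
    · rintro ⟨h1, h2⟩
      exact ⟨h1, by simpa [h1] using h2⟩

variable {W : (k : ℕ) → Set (Set (List (Fin k)))}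

theorem mem_of_unitary (hW : Closed W) {k : ℕ} (M : List (Fin k) → Prop)
    (hU : ∀ x y, M x → (M (x ++ y) ↔ M y))
    (lam : ℕ) (hR : ∀ w : List (Fin k), lam ≤ w.length → ∃ i, 0 < i ∧ i ≤ lam ∧ M (w.take i))
    (hL : LGRec {w : List (Fin k) | w ≠ [] ∧ M w}) :
    {w : List (Fin k) | w ≠ [] ∧ M w} ∈ W k := by
  classical
  have hfin : {w : List (Fin k) | w ≠ [] ∧ M w ∧
      ∀ i, 0 < i → i < w.length → ¬ M (w.take i)}.Finite := by
    refine (List.finite_length_le (Fin k) lam).subset ?_
    rintro w ⟨_, _, h3⟩
    simp only [Set.mem_ofPred_eq]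
    by_contra hlt
    obtain ⟨i, hi, hi', hM⟩ := hR w (by omega)
    exact h3 i hi (by omega) hM
  have key : {w : List (Fin k) | ∃ l : List (List (Fin k)),
      l ≠ [] ∧ (∀ p ∈ l, p ∈ hfin.toFinset) ∧ w = l.flatten} = {w | w ≠ [] ∧ M w} := by
    ext w
    simp only [Set.mem_ofPred_eq, Set.Finite.mem_toFinset]
    constructor
    · rintro ⟨l, hl, hP, rfl⟩
      induction l with
      | nil => exact absurd rfl hl
      | cons p l ih =>
        have hp := hP p (by simp)
        refine ⟨by simp [hp.1], ?_⟩
        by_cases hl' : l = []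
        · subst hl'; simpa using hp.2.1
        · rw [List.flatten_cons, hU _ _ hp.2.1]
          exact (ih hl' (fun q hq => hP q (by simp [hq]))).2
    · induction hn : w.length using Nat.strong_induction_on generalizing w with
      | _ n ih =>
        rintro ⟨hw, hM⟩
        have hex : ∃ i, 0 < i ∧ M (w.take i) :=
          ⟨w.length, List.length_pos_iff.2 hw, by simpa using hM⟩
        have hi := Nat.find_spec hex
        have hle : Nat.find hex ≤ w.length :=
          Nat.find_min' hex ⟨List.length_pos_iff.2 hw, by simpa using hM⟩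
        have hP : w.take (Nat.find hex) ≠ [] ∧ M (w.take (Nat.find hex)) ∧
            ∀ i, 0 < i → i < (w.take (Nat.find hex)).length →
              ¬ M ((w.take (Nat.find hex)).take i) := by
          refine ⟨?_, hi.2, ?_⟩
          · intro h0
            have := congrArg List.length h0
            simp only [List.length_take, List.length_nil] at this
            omega
          · intro i h1 h2 h3
            simp only [List.length_take] at h2
            rw [List.take_take, min_eq_left (by omega)] at h3
            exact Nat.find_min hex (by omega) ⟨h1, h3⟩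
        by_cases hd : w.drop (Nat.find hex) = []
        · refine ⟨[w.take (Nat.find hex)], by simp, by simpa using hP, ?_⟩
          have := List.take_append_drop (Nat.find hex) w
          rw [hd] at this
          simpa using this.symm
        · have hMd : M (w.drop (Nat.find hex)) := by
            rw [← hU _ _ hi.2, List.take_append_drop]; exact hM
          obtain ⟨l, _, hl2, hl3⟩ := ih (w.drop (Nat.find hex)).length
            (by simp only [List.length_drop]; have := List.length_pos_iff.2 hw; omega)
            _ rfl ⟨hd, hMd⟩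
          refine ⟨w.take (Nat.find hex) :: l, by simp, ?_, ?_⟩
          · intro p hp
            rcases List.mem_cons.1 hp with rfl | hp
            · exact hP
            · exact hl2 p hp
          · rw [List.flatten_cons, ← hl3, List.take_append_drop]
  rw [← key]
  apply hW.code
  · simp
  · intro p hp q hq hpq
    simp only [Set.Finite.mem_toFinset, Set.mem_ofPred_eq] at hp hq
    by_contra hne
    have hlt : p.length < q.length :=
      lt_of_le_of_ne hpq.length_le (fun h => hne (hpq.eq_of_length h))
    apply hq.2.2 p.length (List.length_pos_iff.2 hp.1) hlt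
    rw [← List.prefix_iff_eq_take.1 hpq]
    exact hp.2.1
  · rw [key]; exact hL

theorem WW_of_unitary (hW : Closed W) {α St : Type} [Finite α] [Nonempty α] [Finite St]
    (M : List α → Prop) (hU : ∀ x y, M x → (M (x ++ y) ↔ M y))
    (lam : ℕ) (hR : ∀ w : List α, lam ≤ w.length → ∃ i, 0 < i ∧ i ≤ lam ∧ M (w.take i))
    {step : St → α → St} (h : EvInj step) (s₀ : St) (T : Set St)
    (hM : ∀ w, M w ↔ w.foldl step s₀ ∈ T) : WW W M := by
  unfold WW
  have : Nonempty (Fin (Nat.card α)) := ⟨Finite.equivFin α (Classical.arbitrary α)⟩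
  apply mem_of_unitary hW (fun w => M (w.map (Finite.equivFin α).symm)) _ lam
  · intro w hw
    obtain ⟨i, h1, h2, h3⟩ := hR (w.map (Finite.equivFin α).symm) (by simpa using hw)
    exact ⟨i, h1, h2, by rw [List.map_take]; exact h3⟩
  · have hE : EvInj (fun s b => step s ((Finite.equivFin α).symm b)) := by
      obtain ⟨μ, hμ⟩ := h
      refine ⟨μ, fun u v hu p q hpq => ?_⟩
      have := hμ (u.map (Finite.equivFin α).symm) (v.map (Finite.equivFin α).symm)
        (by simpa using hu) p q (by rw [← List.map_append, List.foldl_map, List.foldl_map]; exact hpq)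
      rwa [List.foldl_map, List.foldl_map] at this
    convert LGRec_of_evInj hE s₀ T using 3 with w
    rw [hM, List.foldl_map]
  · intro x y hx
    rw [List.map_append]
    exact hU _ _ hx

end Pool.Agent.MP_df6b17_lc
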