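import Pool.Agent.MP_df6b17_lc.Rank

/-!
Systems with several cut states are simulated by a finite maximal bifix code over a larger
alphabet.
-/

set_option autoImplicit false

namespace Pool.Agent.MP_df6b17_lc

section
variable {α Ω : Type}

/-- a system of threads with cut states `Q` -/
structure Cut (π : List α → Ω → Ω) (Q : Ω → Prop) (lam : ℕ) : Prop where
  inj : ∀ z, Function.Injective (π z)
  forget : ∀ q, Q q → ∀ z v, run π z q v = run π [] q v
  ret : ∀ z ω (v : List α), lam ≤ v.length → ∃ i, 0 < i ∧ i ≤ lam ∧ Q (run π z ω (v.take i))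

def mrk (α : Type) (N : ℕ) : List (α ⊕ Fin (N + 1)) := (List.finRange (N + 1)).map Sum.inr

def ψ (N : ℕ) (a : α) : List (α ⊕ Fin (N + 1)) := Sum.inl a :: mrk α N

def enc (N : ℕ) (i : ℕ) (w : List α) (a : α) (j : ℕ) : List (α ⊕ Fin (N + 1)) :=
  (mrk α N).drop (i + 1) ++ w.flatMap (ψ N) ++ Sum.inl a :: (mrk α N).take (j + 1)

def strip {β : Type} (x : List (α ⊕ β)) : List α := x.filterMap Sum.getLeft?

@[simp] theorem mrk_length (N : ℕ) : (mrk α N).length = N + 1 := by simp [mrk]

theorem strip_sub {N : ℕ} {x : List (α ⊕ Fin (N + 1))} (h : x.Sublist (mrk α N)) :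
    strip x = [] := by
  have h1 : strip (mrk α N) = [] := by simp [strip, mrk]
  have h2 : (strip x).Sublist (strip (mrk α N)) := h.filterMap _
  rw [h1] at h2
  simpa using h2

theorem strip_append {β : Type} (x y : List (α ⊕ β)) : strip (x ++ y) = strip x ++ strip y := by
  simp [strip]

theorem strip_inl {β : Type} (a : α) (y : List (α ⊕ β)) : strip (Sum.inl a :: y) = a :: strip y := by
  simp [strip]

theorem strip_flatMap (N : ℕ) (w : List α) : strip (w.flatMap (ψ N)) = w := by
  induction w with
  | nil => rfl
  | cons a w ih =>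
    rw [List.flatMap_cons, strip_append, ih, ψ, strip_inl, strip_sub (List.Sublist.refl _)]
    rfl

theorem strip_enc (N i : ℕ) (w : List α) (a : α) (j : ℕ) : strip (enc N i w a j) = w ++ [a] := by
  rw [enc, strip_append, strip_append, strip_inl, strip_flatMap,
    strip_sub (List.drop_sublist _ _), strip_sub (List.take_sublist _ _)]
  simp

theorem enc_head {N i : ℕ} (hi : i < N) (w : List α) (a : α) (j : ℕ) :
    (enc N i w a j).head? = some (Sum.inr ⟨i + 1, by omega⟩) := by
  have : ((mrk α N).drop (i + 1)).head? = some (Sum.inr ⟨i + 1, by omega⟩) := by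
    rw [List.head?_drop]
    simp [mrk, hi]
  rw [enc, List.append_assoc, List.head?_append, this]
  rfl

theorem enc_last {N j : ℕ} (hj : j < N) (i : ℕ) (w : List α) (a : α) :
    (enc N i w a j).getLast? = some (Sum.inr ⟨j, by omega⟩) := by
  have : ((mrk α N).take (j + 1)).getLast? = some (Sum.inr ⟨j, by omega⟩) := by
    rw [List.getLast?_take]
    have : j < N + 1 := by omega
    simp [mrk, this]
  rw [enc, List.getLast?_append, ← List.singleton_append, List.getLast?_append, this]
  rfl

theorem enc_split (N i j k : ℕ) (w₁ w₂ : List α) (a₁ a₂ : α) :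
    enc N i (w₁ ++ [a₁] ++ w₂) a₂ k = enc N i w₁ a₁ j ++ enc N j w₂ a₂ k := by
  simp only [enc, List.flatMap_append, List.flatMap_cons, List.nil_append, ψ,
    List.append_assoc, List.cons_append]
  rw [← List.append_assoc (List.take _ _), List.take_append_drop]

theorem enc_full (N i j : ℕ) (w : List α) (a : α) :
    (mrk α N).drop (i + 1) ++ (w ++ [a]).flatMap (ψ N) = enc N i w a j ++ (mrk α N).drop (j + 1) := by
  simp only [enc, List.flatMap_append, List.flatMap_cons, List.flatMap_nil, List.append_nil, ψ,
    List.append_assoc, List.cons_append, List.take_append_drop]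

theorem enc_length (N i j : ℕ) (w : List α) (a : α) :
    (enc N i w a j).length ≤ (N + 1) + (w.length + 1) * (N + 2) := by
  have : (w.flatMap (ψ N)).length = w.length * (N + 2) := by
    induction w with
    | nil => simp
    | cons b w ih => rw [List.flatMap_cons, List.length_append, ih]; simp [ψ]; ring
  simp only [enc, List.length_append, this, List.length_drop, mrk_length, List.length_cons,
    List.length_take]
  have : (w.length + 1) * (N + 2) = w.length * (N + 2) + (N + 2) := by ring
  omega

variable {π : List α → Ω → Ω} {Q : Ω → Prop} {lam : ℕ}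

/-- first return -/
def FR (π : List α → Ω → Ω) (Q : Ω → Prop) (q : Ω) (v : List α) : Prop :=
  Q q ∧ Q (run π [] q v) ∧ ∀ p, p <+: v → p ≠ [] → p ≠ v → ¬ Q (run π [] q p)

theorem first_ret {q : Ω} (hq : Q q) {v : List α} {i : ℕ} (hi : 0 < i) (hi' : i ≤ v.length)
    (h : Q (run π [] q (v.take i))) :
    ∃ w a, w ++ [a] <+: v ∧ w.length + 1 ≤ i ∧ FR π Q q (w ++ [a]) := by
  classical
  have hex : ∃ i, 0 < i ∧ Q (run π [] q (v.take i)) := ⟨i, hi, h⟩
  have h1 := Nat.find_spec hex
  have h2 : Nat.find hex ≤ i := Nat.find_min' hex ⟨hi, h⟩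
  have hne : v.take (Nat.find hex) ≠ [] := by
    intro e
    have := congrArg List.length e
    simp only [List.length_take, List.length_nil] at this
    omega
  obtain ⟨w, a, hw⟩ : ∃ w a, v.take (Nat.find hex) = w ++ [a] :=
    ⟨_, _, (List.dropLast_append_getLast hne).symm⟩
  have hlen := congrArg List.length hw
  simp only [List.length_take, List.length_append, List.length_singleton] at hlen
  refine ⟨w, a, hw ▸ List.take_prefix _ _, by omega, hq, hw ▸ h1.2, ?_⟩
  intro p hp hp1 hp2 hQ
  have hlt : p.length < (w ++ [a]).length :=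
    lt_of_le_of_ne hp.length_le (fun e => hp2 (hp.eq_of_length e))
  simp only [List.length_append, List.length_singleton] at hlt
  have hp' : p <+: v := hp.trans (hw ▸ List.take_prefix _ _)
  rw [List.prefix_iff_eq_take.1 hp'] at hQ
  exact Nat.find_min hex (by omega) ⟨List.length_pos_iff.2 hp1, hQ⟩

theorem Cut.FR_len (h : Cut π Q lam) {q : Ω} {v : List α} (hv : FR π Q q v) : v.length ≤ lam := by
  by_contra hlt
  obtain ⟨i, h1, h2, h3⟩ := h.ret [] q v (by omega)
  refine hv.2.2 _ (List.take_prefix _ _) ?_ ?_ h3
  · intro e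
    have := congrArg List.length e
    simp only [List.length_take, List.length_nil] at this
    omega
  · intro e
    have := congrArg List.length e
    simp only [List.length_take] at this
    omega

theorem Cut.exists_FR (h : Cut π Q lam) {q : Ω} (hq : Q q) (v : List α) (hv : lam ≤ v.length) :
    ∃ w a, w ++ [a] <+: v ∧ FR π Q q (w ++ [a]) := by
  obtain ⟨i, h1, h2, h3⟩ := h.ret [] q v hv
  obtain ⟨w, a, g1, _, g2⟩ := first_ret hq h1 (by omega) h3
  exact ⟨w, a, g1, g2⟩

/-- the kernel code -/
def KK (π : List α → Ω → Ω) (Q : Ω → Prop) (N : ℕ) (ix : Ω → ℕ) (x : List (α ⊕ Fin (N + 1))) :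
    Prop :=
  ∃ q w a, FR π Q q (w ++ [a]) ∧ x = enc N (ix q) w a (ix (run π [] q (w ++ [a])))

theorem Cut.bifix (h : Cut π Q lam) {N : ℕ} {ix : Ω → ℕ} (hix : Function.Injective ix)
    (hN : ∀ ω, ix ω < N) : Bifix (KK π Q N ix) ((N + 1) + lam * (N + 2)) (N + 1) where
  ne := by
    rintro ⟨q, w, a, _, e⟩
    have := congrArg strip e
    rw [strip_enc] at this
    simp [strip] at this
  pre := by
    rintro x y ⟨q, w, a, hF, rfl⟩ ⟨q', w', a', hF', rfl⟩ hp
    have h1 : w ++ [a] <+: w' ++ [a'] := by
      have := hp.filterMap Sum.getLeft?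
      rwa [← strip, ← strip, strip_enc, strip_enc] at this
    have h2 : q = q' := by
      obtain ⟨t, ht⟩ := hp
      have := congrArg List.head? ht
      rw [List.head?_append, enc_head (hN _), enc_head (hN _)] at this
      simp only [Option.some_or, Option.some.injEq, Sum.inr.injEq, Fin.mk.injEq] at this
      exact hix (by omega)
    subst h2
    have h3 : w ++ [a] = w' ++ [a'] := by
      by_contra hne
      exact hF'.2.2 _ h1 (by simp) hne hF.2.1
    obtain ⟨rfl, e⟩ := List.append_inj' h3 rfl
    obtain rfl : a = a' := by simpa using e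
    rfl
  suf := by
    rintro x y ⟨q, w, a, hF, rfl⟩ ⟨q', w', a', hF', rfl⟩ hp
    have h1 : w ++ [a] <:+ w' ++ [a'] := by
      have := hp.filterMap Sum.getLeft?
      rwa [← strip, ← strip, strip_enc, strip_enc] at this
    have h2 : run π [] q (w ++ [a]) = run π [] q' (w' ++ [a']) := by
      obtain ⟨t, ht⟩ := hp
      have := congrArg List.getLast? ht
      rw [List.getLast?_append, enc_last (hN _), enc_last (hN _)] at this
      simp only [Option.some_or, Option.some.injEq, Sum.inr.injEq, Fin.mk.injEq] at this
      exact hix this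
    obtain ⟨t, ht⟩ := h1
    have h3 : q = run π [] q' t := by
      rw [← ht, run_append π [] q' t, ← h.forget q hF.1 ([] ++ t)] at h2
      exact run_inj h.inj _ _ h2
    have h4 : t = [] := by
      by_contra hne
      refine hF'.2.2 t ⟨_, ht⟩ hne ?_ (h3 ▸ hF.1)
      intro e
      have := congrArg List.length ht
      rw [e] at this
      simp at this
    subst h4
    obtain rfl : q = q' := h3
    rw [List.nil_append] at ht
    obtain ⟨rfl, e⟩ := List.append_inj' ht rfl
    obtain rfl : a = a' := by simpa using e
    rfl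
  len := by
    rintro x ⟨q, w, a, hF, rfl⟩
    have h1 := h.FR_len hF
    simp only [List.length_append, List.length_singleton] at h1
    exact (enc_length _ _ _ _ _).trans (by gcongr)
  ins := by
    intro z v hv
    by_cases hex : ∃ i, ∃ hi : i < N + 1, ∃ a, v[i]'(by omega) = Sum.inl a
    · obtain ⟨i, hi, a, ha⟩ := hex
      refine ⟨i + 1, by omega, by omega, ?_⟩
      rintro ⟨x, ⟨t, ht⟩, q, w, b, _, rfl⟩
      have := congrArg List.getLast? ht
      rw [List.getLast?_append, enc_last (hN _), List.getLast?_append, List.getLast?_take] at this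
      have hi' : i < v.length := by omega
      simp [List.getElem?_eq_getElem hi', ha] at this
    · refine ⟨N + 1, by omega, le_rfl, ?_⟩
      rintro ⟨x, hx, q, w, b, _, rfl⟩
      have h1 : Sum.inl b :: (mrk α N).take (ix (run π [] q (w ++ [b])) + 1) <:+
          z ++ v.take (N + 1) := (List.suffix_append _ _).trans hx
      have h2 := List.suffix_of_suffix_length_le h1 (List.suffix_append _ _) (by
        have := hN (run π [] q (w ++ [b]))
        simp only [List.length_cons, List.length_take, mrk_length]
        omega)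
      have h3 : Sum.inl b ∈ v.take (N + 1) := h2.subset (by simp)
      obtain ⟨i, hi, e⟩ := List.mem_take_iff_getElem.1 h3
      exact hex ⟨i, by omega, b, e⟩

variable {W : (k : ℕ) → Set (Set (List (Fin k)))}

theorem Cut.WW_run (hW : Closed W) [Finite α] [Finite Ω] (h : Cut π Q lam) {q q' : Ω}
    (hq : Q q) (hq' : Q q') : WW W (fun w => run π [] q w = q') := by
  let N := Nat.card Ω
  let ix : Ω → ℕ := fun ω => (Finite.equivFin Ω ω).val
  have hix : Function.Injective ix := fun a b e => (Finite.equivFin Ω).injective (Fin.ext e)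
  have hN : ∀ ω, ix ω < N := fun ω => (Finite.equivFin Ω ω).isLt
  obtain ⟨M, hM, hR, hL, hK, hP, hE⟩ := (h.bifix hix hN).completion hW
  have fwd : ∀ n (w : List α) a q, w.length = n → Q q → Q (run π [] q (w ++ [a])) →
      M (enc N (ix q) w a (ix (run π [] q (w ++ [a])))) := by
    intro n
    induction n using Nat.strong_induction_on with
    | _ n ih =>
      intro w a q hn hq hq'
      obtain ⟨w₁, a₁, g1, _, g2⟩ := first_ret (π := π) hq (v := w ++ [a])
        (i := (w ++ [a]).length) (by simp) le_rfl (by rwa [List.take_length])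
      rcases List.prefix_concat_iff.1 g1 with e | ⟨w₂, rfl⟩
      · obtain ⟨rfl, e⟩ := List.append_inj' e rfl
        obtain rfl : a₁ = a := by simpa using e
        exact hK _ ⟨q, _, _, g2, rfl⟩
      · have e : run π [] q (w₁ ++ [a₁] ++ w₂ ++ [a]) =
            run π [] (run π [] q (w₁ ++ [a₁])) (w₂ ++ [a]) := by
          rw [List.append_assoc (w₁ ++ [a₁]), run_append, h.forget _ g2.2.1]
        rw [enc_split _ _ (ix (run π [] q (w₁ ++ [a₁]))), hR _ _ (hK _ ⟨q, _, _, g2, rfl⟩), e]
        exact ih w₂.length (by simp at hn; omega) _ _ _ rfl g2.2.1 (e ▸ hq')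
  have hne : ∀ i (w : List α) a j, enc N i w a j ≠ [] := by
    intro i w a j e
    have := congrArg strip e
    rw [strip_enc] at this
    simp [strip] at this
  have same : ∀ (w : List α) a q q', FR π Q q (w ++ [a]) → M (enc N (ix q) w a (ix q')) →
      run π [] q (w ++ [a]) = q' := by
    intro w a q q' g2 hM
    have hK1 : KK π Q N ix _ := ⟨q, _, _, g2, rfl⟩
    rcases lt_trichotomy (ix q') (ix (run π [] q (w ++ [a]))) with l | l | l
    · exfalso
      refine hP _ _ hK1 ?_ (hne _ _ _ _) ?_ hM
      · unfold enc
        rw [List.prefix_append_right_inj, List.prefix_cons_inj]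
        exact List.take_prefix_take_left (by omega)
      · intro e
        have := congrArg List.getLast? e
        rw [enc_last (hN _), enc_last (hN _)] at this
        simp only [Option.some.injEq, Sum.inr.injEq, Fin.mk.injEq] at this
        omega
    · exact (hix l).symm
    · exfalso
      obtain ⟨k, hk⟩ : ∃ k, ix q' = ix (run π [] q (w ++ [a])) + (k + 1) :=
        ⟨ix q' - ix (run π [] q (w ++ [a])) - 1, by omega⟩
      have e : enc N (ix q) w a (ix q') =
          enc N (ix q) w a (ix (run π [] q (w ++ [a]))) ++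
            ((mrk α N).drop (ix (run π [] q (w ++ [a])) + 1)).take (k + 1) := by
        simp only [enc, List.append_assoc, List.cons_append]
        rw [← List.take_add, hk]
        congr 4
        omega
      rw [e, hR _ _ (hK _ hK1)] at hM
      obtain ⟨w₃, a₃, _, g3⟩ := h.exists_FR g2.2.1 (List.replicate lam a) (by simp)
      refine hP _ _ ⟨_, _, _, g3, rfl⟩ ?_ ?_ ?_ hM
      · unfold enc
        rw [List.append_assoc]
        exact (List.take_prefix _ _).trans (List.prefix_append _ _)
      · intro e
        have := congrArg List.length e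
        have h5 := hN q'
        simp only [List.length_take, List.length_drop, mrk_length, List.length_nil] at this
        omega
      · intro e
        have := congrArg strip e
        rw [strip_enc, strip_sub ((List.take_sublist _ _).trans (List.drop_sublist _ _))]
          at this
        simp at this
  have bwd : ∀ n (w : List α) a q q', w.length = n → Q q → M (enc N (ix q) w a (ix q')) →
      run π [] q (w ++ [a]) = q' := by
    intro n
    induction n using Nat.strong_induction_on with
    | _ n ih =>
      intro w a q q' hn hq hM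
      obtain ⟨w₁, a₁, g1, g2⟩ := h.exists_FR hq (w ++ [a] ++ List.replicate lam a)
        (by simp; omega)
      have hK1 : KK π Q N ix _ := ⟨q, _, _, g2, rfl⟩
      rcases List.prefix_or_prefix_of_prefix g1 (List.prefix_append _ _) with g | g
      · rcases List.prefix_concat_iff.1 g with e | ⟨w₂, rfl⟩
        · rw [← e]
          obtain ⟨rfl, e⟩ := List.append_inj' e rfl
          obtain rfl : a₁ = a := by simpa using e
          exact same _ _ _ _ g2 hM
        · rw [enc_split _ _ (ix (run π [] q (w₁ ++ [a₁]))), hR _ _ (hK _ hK1)] at hM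
          rw [List.append_assoc (w₁ ++ [a₁]), run_append, h.forget _ g2.2.1]
          exact ih w₂.length (by simp at hn; omega) _ _ _ _ rfl g2.2.1 hM
      · rcases List.prefix_concat_iff.1 g with e | ⟨w₂, rfl⟩
        · obtain ⟨rfl, e⟩ := List.append_inj' e rfl
          obtain rfl : a = a₁ := by simpa using e
          exact same _ _ _ _ g2 hM
        · exfalso
          refine hP _ _ hK1 ?_ (hne _ _ _ _) ?_ hM
          · rw [enc_split _ _ (ix q')]
            exact List.prefix_append _ _
          · intro e
            have := congrArg strip e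
            rw [strip_enc, strip_enc] at this
            have := congrArg List.length this
            simp at this
  obtain ⟨y, hy⟩ := hE ((mrk α N).drop (ix q' + 1))
  refine (((hM.right hW y).left hW ((mrk α N).drop (ix q + 1))).inv hW (ψ N)
    (fun a => by simp [ψ])).congr (fun v hv => ?_)
  obtain ⟨w, a, rfl⟩ : ∃ w a, v = w ++ [a] := ⟨_, _, (List.dropLast_append_getLast hv).symm⟩
  rw [enc_full _ _ (ix q'), List.append_assoc, hL _ _ hy]
  constructor
  · exact bwd _ _ _ _ _ rfl hq
  · rintro rfl
    exact fwd _ _ _ _ rfl hq hq'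

theorem Cut.rec_run (hW : Closed W) [Finite α] [Nonempty α] [Finite Ω] (h : Cut π Q lam) {μ : ℕ}
    (hμ : Mem μ π) (h0 y0 : List α) (hh : lam ≤ h0.length) (hy : μ ≤ y0.length) :
    Rec W (fun w => fun ω => run π [] ω (h0 ++ w ++ y0)) := by
  obtain ⟨a⟩ := ‹Nonempty α›
  have key : Rec W (fun w (t : Ω × Fin (lam + 1) × Fin (lam + 1) × Ω) =>
      Q t.1 ∧ Q t.2.2.2 ∧ run π [] t.1 (h0.drop t.2.1 ++ (w ++ (y0 ++
        (List.replicate lam a).take t.2.2.1))) = t.2.2.2) := by
    refine Rec_pi hW (fun t => Rec_of_WW hW ?_)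
    by_cases h1 : Q t.1 ∧ Q t.2.2.2
    · exact (((h.WW_run hW h1.1 h1.2).left hW (h0.drop t.2.1)).right hW
        (y0 ++ (List.replicate lam a).take t.2.2.1)).congr (fun w _ => by simp only [h1, true_and])
    · exact (WW_false hW).congr (fun w _ => by tauto)
  refine key.determined (fun w w' _ _ e => ?_)
  funext ω
  obtain ⟨i, _, hi, hq⟩ := h.ret [] ω h0 hh
  have e1 : ∀ v, run π [] ω (h0 ++ v) = run π [] (run π [] ω (h0.take i)) (h0.drop i ++ v) := by
    intro v
    conv_lhs => rw [← List.take_append_drop i h0, List.append_assoc, run_append]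
    exact h.forget _ hq _ _
  obtain ⟨j, _, hj, hq'⟩ := h.ret ([] ++ (h0 ++ w ++ y0)) (run π [] ω (h0 ++ w ++ y0))
    (List.replicate lam a) (by simp)
  rw [← run_append] at hq'
  have e2 := congrFun e (run π [] ω (h0.take i), ⟨i, by omega⟩, ⟨j, by omega⟩,
    run π [] ω (h0 ++ w ++ y0 ++ (List.replicate lam a).take j))
  simp only [← e1, eq_iff_iff] at e2
  have e3 := (e2.1 ⟨hq, hq', by simp only [List.append_assoc]⟩).2.2
  simp only [← List.append_assoc] at e3
  rw [run_append π [] ω (h0 ++ w' ++ y0), run_append π [] ω (h0 ++ w ++ y0), List.nil_append,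
    List.nil_append, run_mem hμ _ (h0 ++ w) y0 hy] at e3
  exact (run_inj h.inj _ _ e3).symm

end

end Pool.Agent.MP_df6b17_lc
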