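import Pool.Agent.MP_df6b17_lc.Threads

/-!
Completion of an insufficient finite bifix code to a finite maximal bifix code.
-/

set_option autoImplicit false

namespace Pool.Agent.MP_df6b17_lc

section
variable {β : Type}

def NoPre (K : List β → Prop) (s : List β) : Prop := ∀ x, x <+: s → ¬ K x

def HasSuf (K : List β → Prop) (s : List β) : Prop := ∃ x, x <:+ s ∧ K x

structure Bifix (K : List β → Prop) (d m : ℕ) : Prop where
  ne : ¬ K []
  pre : ∀ x y, K x → K y → x <+: y → x = y
  suf : ∀ x y, K x → K y → x <:+ y → x = y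
  len : ∀ x, K x → x.length ≤ d
  ins : ∀ z v : List β, m ≤ v.length → ∃ i, 0 < i ∧ i ≤ m ∧ ¬ HasSuf K (z ++ v.take i)

open Classical in
noncomputable def rk (K : List β → Prop) : List β → ℕ
  | [] => 0
  | a :: s => rk K s + if NoPre K (a :: s) then 1 else 0

theorem rk_le (K : List β → Prop) (s : List β) : rk K s ≤ s.length := by
  induction s with
  | nil => simp [rk]
  | cons a s ih => simp only [rk, List.length_cons]; split_ifs <;> omega

theorem rk_mono (K : List β → Prop) {s t : List β} (h : s <:+ t) : rk K s ≤ rk K t := by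
  obtain ⟨u, rfl⟩ := h
  induction u with
  | nil => simp
  | cons a u ih => simp only [List.cons_append, rk]; omega

theorem rk_lt (K : List β → Prop) {s t : List β} (h : s <:+ t) (hne : s ≠ t) (ht : NoPre K t) :
    rk K s < rk K t := by
  cases t with
  | nil => exact absurd (List.suffix_nil.1 h) hne
  | cons a t =>
    have := rk_mono K ((List.suffix_cons_iff.1 h).resolve_left hne)
    simp only [rk, if_pos ht]; omega

theorem noPre_concat {K : List β → Prop} (s : List β) (b : β) :
    NoPre K (s ++ [b]) ↔ NoPre K s ∧ ¬ K (s ++ [b]) := by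
  constructor
  · intro h
    exact ⟨fun x hx => h x (hx.trans (List.prefix_append _ _)), h _ List.prefix_rfl⟩
  · rintro ⟨h1, h2⟩ x hx
    rcases List.prefix_concat_iff.1 hx with rfl | hx
    · exact h2
    · exact h1 x hx

theorem hasSuf_cons {K : List β → Prop} (s : List β) (a : β) :
    HasSuf K (a :: s) ↔ K (a :: s) ∨ HasSuf K s := by
  constructor
  · rintro ⟨x, hx, hK⟩
    rcases List.suffix_cons_iff.1 hx with rfl | hx
    · exact Or.inl hK
    · exact Or.inr ⟨x, hx, hK⟩
  · rintro (h | ⟨x, hx, hK⟩)
    · exact ⟨_, List.suffix_rfl, h⟩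
    · exact ⟨x, hx.trans (List.suffix_cons _ _), hK⟩

variable {K : List β → Prop} {d m : ℕ}

theorem Bifix.noPre_nil (h : Bifix K d m) : NoPre K [] := fun x hx => by
  rw [List.prefix_nil.1 hx]; exact h.ne

theorem Bifix.not_hasSuf_nil (h : Bifix K d m) : ¬ HasSuf K [] := by
  rintro ⟨x, hx, hK⟩
  rw [List.suffix_nil.1 hx] at hK; exact h.ne hK

theorem Bifix.noPre_of (h : Bifix K d m) {s : List β} {b : β} (hK : K (s ++ [b])) : NoPre K s := by
  intro x hx hx'
  have := h.pre x _ hx' hK (hx.trans (List.prefix_append _ _))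
  have h2 := hx.length_le
  rw [this] at h2
  simp at h2

open Classical in
theorem Bifix.rk_concat (h : Bifix K d m) (s : List β) (b : β) :
    rk K (s ++ [b]) + (if HasSuf K (s ++ [b]) then 1 else 0) = rk K s + 1 := by
  induction s with
  | nil =>
    have h1 := noPre_concat (K := K) [] b
    have h2 := hasSuf_cons (K := K) [] b
    have h3 := h.noPre_nil
    have h4 := h.not_hasSuf_nil
    simp only [List.nil_append] at h1 h2 ⊢
    simp only [rk]
    by_cases hb : K [b] <;> simp_all
  | cons a s ih =>
    have h1 := noPre_concat (K := K) (a :: s) b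
    have h2 := hasSuf_cons (K := K) (s ++ [b]) a
    simp only [List.cons_append] at h1 h2 ⊢
    simp only [rk]
    by_cases hK : K (a :: (s ++ [b]))
    · have h3 : NoPre K (a :: s) := h.noPre_of (s := a :: s) hK
      have h4 : ¬ HasSuf K (s ++ [b]) := by
        rintro ⟨x, hx, hx'⟩
        have := h.suf x _ hx' hK (hx.trans (List.suffix_cons _ _))
        have h2 := hx.length_le
        rw [this] at h2
        simp at h2
      simp only [h1, h2, hK, h3, h4] at ih ⊢
      simp at ih ⊢
      omega
    · simp only [h1, h2, hK] at ih ⊢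
      simp at ih ⊢
      omega

open Classical in
noncomputable def jn (K : List β → Prop) (d : ℕ) (z : List β) : ℕ :=
  if h : HasSuf K z then rk K (Classical.choose h).dropLast else d

theorem Bifix.jn_eq (h : Bifix K d m) {x z : List β} (hx : x <:+ z) (hK : K x) :
    jn K d z = rk K x.dropLast := by
  have hs : HasSuf K z := ⟨x, hx, hK⟩
  have hc := Classical.choose_spec hs
  have : Classical.choose hs = x := by
    rcases List.suffix_or_suffix_of_suffix hc.1 hx with h1 | h1
    · exact h.suf _ _ hc.2 hK h1
    · exact (h.suf _ _ hK hc.2 h1).symm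
  rw [jn, dif_pos hs, this]

theorem jn_not {z : List β} (hz : ¬ HasSuf K z) : jn K d z = d := by
  rw [jn, dif_neg hz]

theorem Bifix.jn_le (h : Bifix K d m) (z : List β) : jn K d z ≤ d := by
  by_cases hz : HasSuf K z
  · obtain ⟨x, hx, hK⟩ := hz
    rw [h.jn_eq hx hK]
    have h1 := rk_le K x.dropLast
    have h2 := h.len x hK
    simp only [List.length_dropLast] at h1
    omega
  · rw [jn_not hz]

theorem Bifix.mem_jn (h : Bifix K d m) : Mem d (jn K d) := by
  have key : ∀ z y : List β, d ≤ y.length → jn K d (z ++ y) = jn K d y := by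
    intro z y hy
    by_cases hs : HasSuf K y
    · obtain ⟨x, hx, hK⟩ := hs
      rw [h.jn_eq hx hK, h.jn_eq (hx.trans (List.suffix_append _ _)) hK]
    · rw [jn_not hs, jn_not]
      rintro ⟨x, hx, hK⟩
      exact hs ⟨x, List.suffix_of_suffix_length_le hx (List.suffix_append _ _)
        ((h.len x hK).trans hy), hK⟩
  intro z z' y hy
  rw [key z y hy, key z' y hy]

noncomputable def rπ (K : List β → Prop) (d : ℕ) (z : List β) (ρ : Fin (d + 1)) : Fin (d + 1) :=
  Fin.cycleRange ⟨min (jn K d z) d, by omega⟩ ρ

theorem rπ_inj (z : List β) : Function.Injective (rπ K d z) := Equiv.injective _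

theorem Bifix.mem_rπ (h : Bifix K d m) : Mem d (rπ K d) := by
  intro z z' y hy
  funext ρ
  simp only [rπ, h.mem_jn z z' y hy]

theorem Bifix.rπ_val (h : Bifix K d m) (z : List β) (ρ : Fin (d + 1)) :
    (rπ K d z ρ).val =
      if ρ.val < jn K d z then ρ.val + 1 else if ρ.val = jn K d z then 0 else ρ.val := by
  have hle := h.jn_le z
  unfold rπ
  split_ifs with h1 h2
  · rw [Fin.coe_cycleRange_of_lt (by rw [Fin.lt_def]; simp only; omega)]
  · rw [Fin.cycleRange_of_eq (by apply Fin.ext; simp only; omega)]; rfl
  · rw [Fin.cycleRange_of_gt (by rw [Fin.lt_def]; simp only; omega)]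

open Classical in
noncomputable def nxt (K : List β → Prop) (d : ℕ) (s : List β) (b : β) : List β :=
  if K (s ++ [b]) ∨ (rk K s = d ∧ ¬ HasSuf K (s ++ [b])) then [] else s ++ [b]

theorem Bifix.step (h : Bifix K d m) {s z : List β} (hs : s <:+ z) (hN : NoPre K s)
    {ρ : Fin (d + 1)} (hρ : ρ.val = rk K s) (b : β) :
    (rπ K d (z ++ [b]) ρ).val = rk K (nxt K d s b) ∧ NoPre K (nxt K d s b) ∧
      nxt K d s b <:+ z ++ [b] := by
  classical
  have hsb : s ++ [b] <:+ z ++ [b] := List.suffix_append_self_iff.2 hs
  refine ⟨?_, ?_, ?_⟩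
  · have hc := h.rk_concat s b
    have hd := ρ.isLt
    rw [h.rπ_val, hρ]
    by_cases hz : HasSuf K (z ++ [b])
    · obtain ⟨x, hx, hK⟩ := hz
      have hle := h.jn_le (z ++ [b])
      rw [h.jn_eq hx hK] at hle ⊢
      rcases List.suffix_concat_iff.1 hx with rfl | ⟨t, rfl, ht⟩
      · exact absurd hK h.ne
      rw [List.dropLast_concat] at hle ⊢
      by_cases hst : s = t
      · subst hst
        simp [nxt, hK, rk]
      · rcases List.suffix_or_suffix_of_suffix hs ht with h1 | h1
        · have h2 := rk_lt K h1 hst (h.noPre_of hK)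
          have h3 : ¬ HasSuf K (s ++ [b]) := by
            rintro ⟨y, hy, hy'⟩
            have e := h.suf y _ hy' hK (hy.trans (List.suffix_append_self_iff.2 h1))
            have l1 := hy.length_le
            rw [e] at l1
            apply hst
            apply h1.eq_of_length_le
            simpa using l1
          have h4 : ¬ K (s ++ [b]) := fun hk => h3 ⟨_, List.suffix_rfl, hk⟩
          have h5 : rk K s ≠ d := by omega
          rw [if_neg h3] at hc
          rw [if_pos h2, nxt, if_neg (by tauto)]
          omega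
        · have h2 := rk_lt K h1 (Ne.symm hst) hN
          have h3 : HasSuf K (s ++ [b]) := ⟨_, List.suffix_append_self_iff.2 h1, hK⟩
          have h4 : ¬ K (s ++ [b]) := fun hk => by
            have e := h.suf _ _ hK hk (List.suffix_append_self_iff.2 h1)
            exact hst (List.append_cancel_right e).symm
          rw [if_pos h3] at hc
          rw [if_neg (by omega), if_neg (by omega), nxt, if_neg (by tauto)]
          omega
    · have h3 : ¬ HasSuf K (s ++ [b]) := by
        rintro ⟨y, hy, hy'⟩
        exact hz ⟨y, hy.trans hsb, hy'⟩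
      have h4 : ¬ K (s ++ [b]) := fun hk => h3 ⟨_, List.suffix_rfl, hk⟩
      rw [if_neg h3] at hc
      rw [jn_not hz]
      by_cases h5 : rk K s = d
      · rw [if_neg (by omega), if_pos h5, nxt, if_pos (by tauto)]; rfl
      · rw [if_pos (by omega), nxt, if_neg (by tauto)]
        omega
  · unfold nxt
    split_ifs with h1
    · exact h.noPre_nil
    · exact (noPre_concat s b).2 ⟨hN, by tauto⟩
  · unfold nxt
    split_ifs with h1
    · exact List.nil_suffix
    · exact hsb

theorem Bifix.run_val (h : Bifix K d m) (v : List β) {s z : List β} (hs : s <:+ z)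
    (hN : NoPre K s) {ρ : Fin (d + 1)} (hρ : ρ.val = rk K s) :
    (run (rπ K d) z ρ v).val = rk K (v.foldl (nxt K d) s) := by
  induction v generalizing s z ρ with
  | nil => exact hρ
  | cons b v ih =>
    obtain ⟨h1, h2, h3⟩ := h.step hs hN hρ b
    rw [run_cons, List.foldl_cons]
    exact ih h3 h2 h1

theorem Bifix.run_zero (h : Bifix K d m) (z v : List β) :
    (run (rπ K d) z 0 v).val = rk K (v.foldl (nxt K d) []) :=
  h.run_val v List.nil_suffix h.noPre_nil rfl

theorem Bifix.foldl_pre (h : Bifix K d m) {x : List β} (hK : K x) (p : List β) (hp : p <+: x)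
    (hne : p ≠ x) : p.foldl (nxt K d) [] = p := by
  induction p using List.reverseRecOn with
  | nil => rfl
  | append_singleton p b ih =>
    have hlt : (p ++ [b]).length < x.length :=
      lt_of_le_of_ne hp.length_le (fun e => hne (hp.eq_of_length e))
    have h1 := h.len x hK
    have h2 := rk_le K p
    simp only [List.length_append, List.length_singleton] at hlt
    rw [List.foldl_append, ih ((List.prefix_append _ _).trans hp) (by rintro rfl; omega)]
    simp only [List.foldl_cons, List.foldl_nil, nxt]
    rw [if_neg]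
    rintro (h3 | h3)
    · exact hne (h.pre _ _ h3 hK hp)
    · omega

theorem Bifix.run_mono (h : Bifix K d m) (u z : List β) (ρ : Fin (d + 1)) :
    (∃ i, 0 < i ∧ i ≤ u.length ∧ run (rπ K d) z ρ (u.take i) = 0) ∨
      ρ.val ≤ (run (rπ K d) z ρ u).val := by
  induction u using List.reverseRecOn with
  | nil => right; rfl
  | append_singleton u b ih =>
    rcases ih with ⟨i, h1, h2, h3⟩ | ih
    · left
      exact ⟨i, h1, by simp; omega, by rwa [List.take_append_of_le_length h2]⟩
    · by_cases h0 : run (rπ K d) z ρ (u ++ [b]) = 0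
      · left
        exact ⟨(u ++ [b]).length, by simp, le_rfl, by rwa [List.take_length]⟩
      · right
        rw [run_concat] at h0 ⊢
        have h1 := h.rπ_val (z ++ u ++ [b]) (run (rπ K d) z ρ u)
        have h2 : (rπ K d (z ++ u ++ [b]) (run (rπ K d) z ρ u)).val ≠ 0 :=
          fun e => h0 (Fin.ext e)
        split_ifs at h1 <;> omega

theorem Bifix.ret (h : Bifix K d m) (j : ℕ) (z v : List β) (ρ : Fin (d + 1))
    (hj : d < ρ.val + j) (hv : j * m ≤ v.length) :
    ∃ i, 0 < i ∧ i ≤ j * m ∧ run (rπ K d) z ρ (v.take i) = 0 := by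
  induction j generalizing z v ρ with
  | zero => have := ρ.isLt; omega
  | succ j ih =>
    rw [Nat.succ_mul] at hv ⊢
    obtain ⟨i, h1, h2, h3⟩ := h.ins z v (by omega)
    obtain ⟨u, b, hu⟩ : ∃ u b, v.take i = u ++ [b] := by
      have : v.take i ≠ [] := by
        intro e
        have := congrArg List.length e
        simp only [List.length_take, List.length_nil] at this
        omega
      exact ⟨_, _, (List.dropLast_append_getLast this).symm⟩
    have hlen : u.length + 1 = i := by
      have := congrArg List.length hu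
      simp only [List.length_take, List.length_append, List.length_singleton] at this
      omega
    rcases h.run_mono u z ρ with ⟨i', g1, g2, g3⟩ | hmono
    · refine ⟨i', g1, by omega, ?_⟩
      have : v.take i' = u.take i' := by
        rw [← List.take_append_of_le_length (l₂ := [b]) g2, ← hu, List.take_take,
          min_eq_left (by omega)]
      rwa [this]
    · by_cases h0 : run (rπ K d) z ρ (v.take i) = 0
      · exact ⟨i, h1, by omega, h0⟩
      · have hlt : ρ.val < (run (rπ K d) z ρ (v.take i)).val := by
          have h2 : (run (rπ K d) z ρ (v.take i)).val ≠ 0 := fun e => h0 (Fin.ext e)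
          rw [hu, ← List.append_assoc] at h3
          rw [hu, run_concat, h.rπ_val, jn_not h3] at h2 ⊢
          have := (run (rπ K d) z ρ u).isLt
          split_ifs at h2 ⊢ <;> omega
        obtain ⟨i', g1, g2, g3⟩ := ih (z ++ v.take i) (v.drop i) (run (rπ K d) z ρ (v.take i))
          (by omega) (by simp only [List.length_drop]; omega)
        refine ⟨i + i', by omega, by omega, ?_⟩
        rw [List.take_add, run_append]
        exact g3

variable {W : (k : ℕ) → Set (Set (List (Fin k)))}

theorem Bifix.completion (hW : Closed W) [Finite β] [Nonempty β] (h : Bifix K d m) :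
    ∃ M : List β → Prop, WW W M ∧ (∀ x y, M x → (M (x ++ y) ↔ M y)) ∧
      (∀ x y, M y → (M (x ++ y) ↔ M x)) ∧ (∀ x, K x → M x) ∧
      (∀ x p, K x → p <+: x → p ≠ [] → p ≠ x → ¬ M p) ∧ (∀ x, ∃ y, M (x ++ y)) := by
  have hF : ∀ z v, run (rπ K d) z 0 v = run (rπ K d) [] 0 v := fun z v =>
    Fin.ext (by rw [h.run_zero, h.run_zero])
  refine ⟨fun w => run (rπ K d) [] 0 w = 0, ?_, ?_, ?_, ?_, ?_, ?_⟩
  · exact WW_of_thread hW h.mem_rπ rπ_inj 0 hF ((d + 1) * m)
      (fun w hw => h.ret (d + 1) [] w 0 (by simp) hw)
  · intro x y hx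
    simp only at hx ⊢
    rw [run_append, hx, hF]
  · intro x y hy
    simp only at hy ⊢
    rw [run_append]
    constructor
    · intro e
      apply run_inj rπ_inj ([] ++ x) y
      rw [e, hF, hy]
    · intro e
      rw [e, hF, hy]
  · intro x hK
    have hne : x ≠ [] := by rintro rfl; exact h.ne hK
    obtain ⟨u, b, rfl⟩ : ∃ u b, x = u ++ [b] := ⟨_, _, (List.dropLast_append_getLast hne).symm⟩
    apply Fin.ext
    rw [h.run_zero, List.foldl_append, h.foldl_pre hK u (List.prefix_append _ _) (by simp)]
    simp [nxt, hK, rk]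
  · intro x p hK hp hne hne' e
    have h1 := congrArg Fin.val e
    rw [h.run_zero, h.foldl_pre hK p hp hne'] at h1
    have h2 : NoPre K p := fun y hy hy' => by
      have e := h.pre y x hy' hK (hy.trans hp)
      subst e
      exact hne' (hp.eq_of_length_le hy.length_le)
    have h3 := rk_lt K (List.nil_suffix (l := p)) (Ne.symm hne) h2
    simp only [Fin.val_zero] at h1
    omega
  · intro x
    obtain ⟨b⟩ := ‹Nonempty β›
    obtain ⟨i, _, _, g⟩ := h.ret (d + 1) ([] ++ x) (List.replicate ((d + 1) * m) b)
      (run (rπ K d) [] 0 x) (by omega) (by simp)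
    exact ⟨_, (run_append _ _ _ _ _).trans g⟩

end

end Pool.Agent.MP_df6b17_lc
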