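import Pool.Agent.MP_df6b17_lc.Local

/-!
History dependent injective systems with finite memory.
-/

set_option autoImplicit false

namespace Pool.Agent.MP_df6b17_lc

/-- `run π z ω v`: starting in state `ω` after the text `z`, read `v`; the map `π z'` is applied
when the text has become `z'`. -/
def run {α Ω : Type} (π : List α → Ω → Ω) : List α → Ω → List α → Ω
  | _, ω, [] => ω
  | z, ω, b :: v => run π (z ++ [b]) (π (z ++ [b]) ω) v

/-- `f` only depends on the last `μ` letters of long words -/
def Mem {α T : Type} (μ : ℕ) (f : List α → T) : Prop :=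
  ∀ z z' y : List α, μ ≤ y.length → f (z ++ y) = f (z' ++ y)

/-- the last `μ` letters -/
def suf {α : Type} (μ : ℕ) (z : List α) : List α := z.drop (z.length - μ)

section
variable {α Ω T : Type}

@[simp] theorem run_nil (π : List α → Ω → Ω) (z : List α) (ω : Ω) : run π z ω [] = ω := rfl

theorem run_cons (π : List α → Ω → Ω) (z : List α) (ω : Ω) (b : α) (v : List α) :
    run π z ω (b :: v) = run π (z ++ [b]) (π (z ++ [b]) ω) v := rfl

theorem run_append (π : List α → Ω → Ω) (z : List α) (ω : Ω) (u v : List α) :
    run π z ω (u ++ v) = run π (z ++ u) (run π z ω u) v := by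
  induction u generalizing z ω with
  | nil => simp
  | cons b u ih => simp [run_cons, ih]

theorem run_concat (π : List α → Ω → Ω) (z : List α) (ω : Ω) (u : List α) (b : α) :
    run π z ω (u ++ [b]) = π (z ++ u ++ [b]) (run π z ω u) := by
  rw [run_append]; rfl

theorem run_inj {π : List α → Ω → Ω} (h : ∀ z, Function.Injective (π z)) (z v : List α)
    {ω ω' : Ω} (e : run π z ω v = run π z ω' v) : ω = ω' := by
  induction v generalizing z ω ω' with
  | nil => exact e
  | cons b v ih => exact h _ (ih _ e)

theorem Mem.mono {μ ν : ℕ} {f : List α → T} (h : Mem μ f) (hle : μ ≤ ν) : Mem ν f :=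
  fun z z' y hy => h z z' y (hle.trans hy)

theorem run_mem {π : List α → Ω → Ω} {μ : ℕ} (h : Mem μ π) (z z' y : List α)
    (hy : μ ≤ y.length) (ω : Ω) (v : List α) : run π (z ++ y) ω v = run π (z' ++ y) ω v := by
  induction v generalizing y ω with
  | nil => rfl
  | cons b v ih =>
    rw [run_cons, run_cons, List.append_assoc, List.append_assoc,
      h z z' (y ++ [b]) (by simp; omega)]
    exact ih _ (by simp; omega) _

theorem suf_length_le (μ : ℕ) (z : List α) : (suf μ z).length ≤ μ := by
  simp [suf]; omega

theorem suf_of_le {μ : ℕ} {z : List α} (h : z.length ≤ μ) : suf μ z = z := by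
  simp [suf, Nat.sub_eq_zero_of_le h]

theorem suf_length_of_le {μ : ℕ} {z : List α} (h : μ ≤ z.length) : (suf μ z).length = μ := by
  simp [suf]; omega

theorem suf_suffix (μ : ℕ) (z : List α) : suf μ z <:+ z := List.drop_suffix _ _

theorem suf_append {μ : ℕ} (z y : List α) (h : μ ≤ y.length) : suf μ (z ++ y) = suf μ y := by
  unfold suf
  rw [List.length_append, show z.length + y.length - μ = z.length + (y.length - μ) by omega,
    List.drop_length_add_append]

theorem Mem_suf (μ : ℕ) : Mem μ (suf μ : List α → List α) := fun z z' y hy => by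
  rw [suf_append _ _ hy, suf_append _ _ hy]

theorem Mem.suf {μ : ℕ} {f : List α → T} (h : Mem μ f) (z v : List α) :
    f (suf μ z ++ v) = f (z ++ v) := by
  rcases le_total z.length μ with hz | hz
  · rw [suf_of_le hz]
  · obtain ⟨t, ht⟩ := suf_suffix μ z
    have := h [] t (Pool.Agent.MP_df6b17_lc.suf μ z ++ v)
      (by rw [List.length_append, suf_length_of_le hz]; omega)
    rw [← List.append_assoc t, ht] at this
    simpa using this

theorem run_suf {π : List α → Ω → Ω} {μ : ℕ} (h : Mem μ π) (z : List α) (ω : Ω) (v : List α) :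
    run π (suf μ z) ω v = run π z ω v := by
  rcases le_total z.length μ with hz | hz
  · rw [suf_of_le hz]
  · obtain ⟨t, ht⟩ := suf_suffix μ z
    have := run_mem h [] t (suf μ z) (by rw [suf_length_of_le hz]) ω v
    rw [ht] at this
    simpa using this

/-- the automaton of a system with finite memory -/
def autStep (π : List α → Ω → Ω) (μ : ℕ) (s : Ω × {z : List α // z.length ≤ μ}) (b : α) :
    Ω × {z : List α // z.length ≤ μ} :=
  (π (s.2.1 ++ [b]) s.1, ⟨suf μ (s.2.1 ++ [b]), suf_length_le _ _⟩)

theorem foldl_autStep {π : List α → Ω → Ω} {μ : ℕ} (h : Mem μ π)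
    (s : Ω × {z : List α // z.length ≤ μ}) (w : List α) :
    w.foldl (autStep π μ) s = (run π s.2.1 s.1 w, ⟨suf μ (s.2.1 ++ w), suf_length_le _ _⟩) := by
  induction w generalizing s with
  | nil =>
    obtain ⟨ω, z, hz⟩ := s
    simp [suf_of_le hz]
  | cons b w ih =>
    rw [List.foldl_cons, ih]
    simp only [autStep, run_cons, run_suf h, (Mem_suf μ).suf, List.append_assoc,
      List.singleton_append]

theorem evInj_autStep {π : List α → Ω → Ω} {μ : ℕ} (h : Mem μ π)
    (hinj : ∀ z, Function.Injective (π z)) : EvInj (autStep π μ) := by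
  refine ⟨μ, fun u v hu p q hpq => ?_⟩
  rw [foldl_autStep h, foldl_autStep h] at hpq ⊢
  have h1 := congrArg Prod.fst hpq
  simp only [run_append] at h1
  rw [run_mem h _ q.2.1 u hu] at h1
  have h2 := run_inj hinj _ _ h1
  simp only [h2, suf_append _ _ hu]

variable {W : (k : ℕ) → Set (Set (List (Fin k)))}

theorem WW_of_thread (hW : Closed W) [Finite α] [Nonempty α] [Finite Ω]
    {π : List α → Ω → Ω} {μ : ℕ} (h : Mem μ π) (hinj : ∀ z, Function.Injective (π z)) (q : Ω)
    (hF : ∀ z v, run π z q v = run π [] q v) (lam : ℕ)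
    (hR : ∀ w : List α, lam ≤ w.length → ∃ i, 0 < i ∧ i ≤ lam ∧ run π [] q (w.take i) = q) :
    WW W (fun w => run π [] q w = q) := by
  have : Finite {z : List α // z.length ≤ μ} := (List.finite_length_le α μ).to_subtype
  refine WW_of_unitary hW _ ?_ lam hR (evInj_autStep h hinj) (q, ⟨[], by simp⟩)
    {s | s.1 = q} ?_
  · intro x y hx
    rw [run_append, hx, hF]
  · intro w
    rw [foldl_autStep h]
    simp

end

end Pool.Agent.MP_df6b17_lc
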